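import Pool.Agent.H76.EE.Bounds

/-! # Limit values of q (q e - p) (helper76), for MP_58ae59_nt -/

set_option autoImplicit false

namespace Pool.Agent.H76.EE

theorem Y_bound (n : ℕ) (q p : ℤ) (hq : 0 < q) (M : ℝ) (hM : |(q : ℝ) * (q * e - p)| ≤ M) :
    |((q * A n - p * B n : ℤ) : ℝ)| ≤ B n * (M / q) + q * E n := by
  have hq' : (0 : ℝ) < q := by exact_mod_cast hq
  have h1 : ((q * A n - p * B n : ℤ) : ℝ) = B n * (q * e - p) - q * δ n := by
    unfold δ; push_cast; ring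
  have h2 : |(q * e - p : ℝ)| ≤ M / q := by
    rw [abs_mul, abs_of_pos hq'] at hM
    rw [le_div_iff₀ hq']
    linarith
  rw [h1]
  refine (abs_sub _ _).trans ?_
  rw [abs_mul, abs_mul, abs_δ, abs_of_pos hq', abs_of_pos (Bpos n)]
  gcongr

theorem exists_N (q : ℕ) (hq : 7 ≤ q) : ∃ N, 2 ≤ N ∧ B N ≤ q ∧ q < B (N + 1) := by
  have hex : ∃ n, q < B (n + 1) := by
    refine ⟨27 * q, ?_⟩
    have h := (B_cube (27 * q)).2
    have h2 : 27 * q + 1 ≤ (2 * (27 * q + 1) + 1) ^ 3 := by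
      calc 27 * q + 1 ≤ 2 * (27 * q + 1) + 1 := by omega
        _ = (2 * (27 * q + 1) + 1) ^ 1 := by ring
        _ ≤ (2 * (27 * q + 1) + 1) ^ 3 := Nat.pow_le_pow_right (by omega) (by omega)
    omega
  classical
  have hN := Nat.find_spec hex
  obtain ⟨N, hNdef⟩ : ∃ N, N = Nat.find hex := ⟨_, rfl⟩
  rw [← hNdef] at hN
  have h2 : 2 ≤ N := by
    by_contra hlt
    push Not at hlt
    have : B (N + 1) ≤ B 2 := B_mono' (by omega)
    have h7 : B 2 = 7 := by simp [B]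
    omega
  refine ⟨N, h2, ?_, hN⟩
  have hlt : N - 1 < Nat.find hex := by omega
  have hmin := Nat.find_min hex hlt
  rw [Nat.sub_add_cancel (by omega)] at hmin
  omega

theorem bframe (M : ℝ) (hM1 : 1 ≤ M) (q : ℕ) (p : ℤ) (hq : 7 ≤ q)
    (hM : |(q : ℝ) * (q * e - p)| ≤ M) (hY : ∀ n, (q : ℤ) * A n - p * B n ≠ 0) :
    ∃ n, q < B (n + 3) ∧ |(((q : ℤ) * A (n + 1) - p * B (n + 1) : ℤ) : ℝ)| ≤ 6 * M + 2 ∧
      |(((q : ℤ) * A (n + 2) - p * B (n + 2) : ℤ) : ℝ)| ≤ 6 * M + 2 := by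
  obtain ⟨N, hN2, hN, hN'⟩ := exists_N q hq
  obtain ⟨k, rfl⟩ : ∃ k, N = k + 2 := ⟨N - 2, by omega⟩
  have hq0 : (0 : ℤ) < q := by omega
  have hqr : (0 : ℝ) < q := by exact_mod_cast (by omega : 0 < q)
  have hyb : ∀ n, |(((q : ℤ) * A n - p * B n : ℤ) : ℝ)| ≤ B n * (M / q) + q * E n := by
    intro n
    have := Y_bound n (q : ℤ) p hq0 M (by exact_mod_cast hM)
    exact_mod_cast this
  have hNr : (B (k + 2) : ℝ) ≤ q := by exact_mod_cast hN
  have hN'r : (q : ℝ) ≤ B (k + 3) := by exact_mod_cast hN'.le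
  have hMq : ∀ n, (B n : ℝ) ≤ q → (B n : ℝ) * (M / q) ≤ M := by
    intro n hn
    rw [mul_div_assoc', div_le_iff₀ hqr]
    nlinarith
  have hu2 : u (k + 2) ≤ 1 := by
    have h1 := u_le (k + 1)
    have h2 := u_pos (k + 2)
    change (2 * ((k + 1 + 1 : ℕ) : ℝ) + 1) * u (k + 2) ≤ 1 at h1
    push_cast at h1
    have : (0 : ℝ) ≤ k := Nat.cast_nonneg k
    nlinarith
  have hu3 : u (k + 3) ≤ 1 := by
    have h1 := u_le (k + 2)
    have h2 := u_pos (k + 3)
    change (2 * ((k + 2 + 1 : ℕ) : ℝ) + 1) * u (k + 3) ≤ 1 at h1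
    push_cast at h1
    have : (0 : ℝ) ≤ k := Nat.cast_nonneg k
    nlinarith
  have hBE1 : (B (k + 2) : ℝ) * E (k + 1) ≤ 2 := BE_le (k + 1)
  have hBE2 : (B (k + 3) : ℝ) * E (k + 2) ≤ 2 := BE_le (k + 2)
  by_cases hs : (q : ℝ) ≤ 2 * M * B (k + 2)
  · refine ⟨k, by exact_mod_cast hN', ?_, ?_⟩
    · refine (hyb (k + 1)).trans ?_
      have h1 := hMq (k + 1) ((by exact_mod_cast B_mono (k + 1) : (B (k + 1) : ℝ) ≤ B (k + 2)).trans hNr)
      have h2 : (q : ℝ) * E (k + 1) ≤ 2 * M * B (k + 2) * E (k + 1) :=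
        mul_le_mul_of_nonneg_right hs (E_pos _).le
      nlinarith
    · refine (hyb (k + 2)).trans ?_
      have h1 := hMq (k + 2) hNr
      have h2 : (q : ℝ) * E (k + 2) ≤ 2 * M * B (k + 2) * E (k + 2) :=
        mul_le_mul_of_nonneg_right hs (E_pos _).le
      have h3 : 2 * M * B (k + 2) * E (k + 2) = 2 * M * u (k + 2) := by unfold u; ring
      nlinarith
  · push Not at hs
    have h1 : (B (k + 2) : ℝ) * (M / q) ≤ 1 / 2 := by
      rw [mul_div_assoc', div_le_iff₀ hqr]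
      linarith
    have hY1 : (1 : ℝ) ≤ |(((q : ℤ) * A (k + 2) - p * B (k + 2) : ℤ) : ℝ)| := by
      rw [← Int.cast_abs]
      exact_mod_cast Int.one_le_abs (hY (k + 2))
    have h2 := hyb (k + 2)
    have h3 : 1 / 2 ≤ (q : ℝ) * E (k + 2) := by linarith
    have h4 : (q : ℝ) * E (k + 2) ≤ 2 :=
      (mul_le_mul_of_nonneg_right hN'r (E_pos _).le).trans hBE2
    refine ⟨k + 1, ?_, ?_, ?_⟩
    · exact lt_of_lt_of_le hN' (B_mono' (by omega))
    · change |(((q : ℤ) * A (k + 2) - p * B (k + 2) : ℤ) : ℝ)| ≤ 6 * M + 2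
      linarith
    · change |(((q : ℤ) * A (k + 3) - p * B (k + 3) : ℤ) : ℝ)| ≤ 6 * M + 2
      refine (hyb (k + 3)).trans ?_
      have h5 : (q : ℝ) * E (k + 3) ≤ 1 :=
        (mul_le_mul_of_nonneg_right hN'r (E_pos _).le).trans hu3
      have h6 : (B (k + 3) : ℝ) * (M / q) ≤ 4 * M := by
        rw [mul_div_assoc', div_le_iff₀ hqr]
        have h7 : (B (k + 3) : ℝ) ≤ B (k + 3) * (2 * (q * E (k + 2))) := by
          have := Bpos (k + 3)
          nlinarith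
        have h8 : (B (k + 3) : ℝ) * (2 * (q * E (k + 2))) ≤ 4 * q := by
          have : (B (k + 3) : ℝ) * (2 * (q * E (k + 2))) = 2 * q * (B (k + 3) * E (k + 2)) := by ring
          rw [this]
          nlinarith
        nlinarith
      linarith

theorem gap (L : ℝ) (hL : Irrational L) (Z : ℕ) :
    ∃ η : ℝ, 0 < η ∧ ∀ z : ℤ, |z| ≤ Z → η ≤ |(z : ℝ) / 2 - L| := by
  obtain ⟨z0, -, hz0⟩ := Finset.exists_min_image (Finset.Icc (-(Z : ℤ)) Z)
    (fun z => |(z : ℝ) / 2 - L|) ⟨0, by simp⟩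
  refine ⟨|(z0 : ℝ) / 2 - L|, ?_, ?_⟩
  · rw [abs_pos, sub_ne_zero]
    intro h
    apply hL
    exact ⟨(z0 : ℚ) / 2, by push_cast; exact h⟩
  · intro z hz
    apply hz0
    rw [Finset.mem_Icc]
    exact abs_le.1 hz

theorem small (he : Irrational e) (q1 : ℕ) :
    ∃ c : ℝ, 0 < c ∧ ∀ q : ℕ, 1 ≤ q → q ≤ q1 → ∀ p : ℤ, c ≤ |(q : ℝ) * (q * e - p)| := by
  induction q1 with
  | zero => exact ⟨1, one_pos, fun q h1 h2 => by omega⟩
  | succ m ih =>
    obtain ⟨c, hc, h⟩ := ih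
    obtain ⟨x, hx⟩ : ∃ x : ℝ, x = ((m + 1 : ℕ) : ℝ) * e := ⟨_, rfl⟩
    have hxi : Irrational x := by
      rw [hx]
      exact he.natCast_mul (by omega)
    have hpos : 0 < |x - round x| := by
      rw [abs_pos, sub_ne_zero]
      intro h'
      exact hxi ⟨(round x : ℚ), by push_cast; exact h'.symm⟩
    refine ⟨min c |x - round x|, lt_min hc hpos, ?_⟩
    intro q h1 h2 p
    by_cases hqm : q ≤ m
    · exact (min_le_left _ _).trans (h q h1 hqm p)
    · have : q = m + 1 := by omega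
      subst this
      refine (min_le_right _ _).trans ?_
      rw [← hx, abs_mul, Nat.abs_cast]
      have h3 := round_le x p
      have h4 : (1 : ℝ) ≤ ((m + 1 : ℕ) : ℝ) := by push_cast; linarith [(Nat.cast_nonneg m : (0 : ℝ) ≤ m)]
      have h5 := abs_nonneg (x - p)
      nlinarith

/-- limit values of `q (q e - p)` are half integers, up to multiples of the approximants -/
theorem base (he : Irrational e) (L : ℝ) (hL : Irrational L) (C : ℝ) :
    ∃ Q0 : ℕ, ∀ Q P : ℕ, Q0 ≤ Q → |(Q : ℝ) * (Q * e - P) - L| ≤ C / Q →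
      ∃ n G : ℕ, Q = G * B n ∧ P = G * A n := by
  obtain ⟨M, hM⟩ : ∃ M : ℝ, M = |L| + |C| + 1 := ⟨_, rfl⟩
  have hM1 : 1 ≤ M := by rw [hM]; linarith [abs_nonneg L, abs_nonneg C]
  obtain ⟨R, hR⟩ : ∃ R : ℝ, R = 6 * M + 2 := ⟨_, rfl⟩
  have hR0 : 0 < R := by rw [hR]; linarith
  obtain ⟨Z, hZ⟩ := exists_nat_ge (4 * M * R ^ 2)
  obtain ⟨η, hη, hgap⟩ := gap L hL Z
  obtain ⟨n0, hn0⟩ := exists_nat_gt (8 * M * R ^ 2 / η + 4 * R ^ 2)
  obtain ⟨c, hc, hsm⟩ := small he (B (n0 + 3))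
  obtain ⟨Q0, hQ0⟩ := exists_nat_gt (2 * |C| / η + (M / c + 1) * B (n0 + 3) + 1)
  refine ⟨Q0, fun Q P hQ hQP => ?_⟩
  have hQr : (Q0 : ℝ) ≤ Q := by exact_mod_cast hQ
  have hBp := Bpos (n0 + 3)
  have hMc : 0 < M / c := by positivity
  have hC0 : 0 ≤ 2 * |C| / η := by positivity
  have hpr : 0 < (M / c + 1) * B (n0 + 3) := by positivity
  have hQ1 : (1 : ℝ) < Q := by linarith
  have hQ0' : (0 : ℝ) < Q := by linarith
  have hQn : 0 < Q := by exact_mod_cast hQ0'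
  -- bound of the value
  have hCQ : |C / Q| ≤ |C| := by
    rw [abs_div, abs_of_pos hQ0', div_le_iff₀ hQ0']
    nlinarith [abs_nonneg C]
  have hval : |(Q : ℝ) * (Q * e - P)| ≤ M := by
    have h1 : |(Q : ℝ) * (Q * e - P)| ≤ |(Q : ℝ) * (Q * e - P) - L| + |L| := by
      have := abs_add_le ((Q : ℝ) * (Q * e - P) - L) L
      simpa using this
    have h2 := le_abs_self (C / Q)
    linarith
  have hCη : C / Q < η / 2 := by
    have h1 : C / Q ≤ |C| / Q := by gcongr; exact le_abs_self C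
    refine lt_of_le_of_lt h1 ?_
    rw [div_lt_iff₀ hQ0']
    have h2 : 2 * |C| / η < Q := by linarith
    rw [div_lt_iff₀ hη] at h2
    linarith
  -- primitive part
  obtain ⟨g, hg⟩ : ∃ g, g = Nat.gcd Q P := ⟨_, rfl⟩
  have hgpos : 0 < g := by rw [hg]; exact Nat.gcd_pos_of_pos_left _ hQn
  obtain ⟨q, hq⟩ : ∃ q, Q = g * q := hg ▸ Nat.gcd_dvd_left Q P
  obtain ⟨p, hp⟩ : ∃ p, P = g * p := hg ▸ Nat.gcd_dvd_right Q P
  have hcop : Nat.Coprime q p := by
    have h1 : Nat.gcd (g * q) (g * p) = g := by rw [← hq, ← hp, ← hg]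
    rw [Nat.gcd_mul_left] at h1
    exact Nat.eq_of_mul_eq_mul_left hgpos (by rw [h1, mul_one])
  have hq0 : 0 < q := by
    rcases Nat.eq_zero_or_pos q with h | h
    · rw [h] at hq; omega
    · exact h
  have hgr : (0 : ℝ) < g := by exact_mod_cast hgpos
  have hg1 : (1 : ℝ) ≤ g := by exact_mod_cast hgpos
  have hvq : (Q : ℝ) * (Q * e - P) = (g : ℝ) ^ 2 * (q * (q * e - p)) := by
    rw [hq, hp]; push_cast; ring
  have hvq2 : (g : ℝ) ^ 2 * |(q : ℝ) * (q * e - p)| ≤ M := by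
    rw [hvq, abs_mul, abs_of_nonneg (sq_nonneg _)] at hval
    exact hval
  by_cases hY : ∃ n, (q : ℤ) * A n - p * B n = 0
  · obtain ⟨n, hn⟩ := hY
    have h1 : q * A n = p * B n := by
      have : (q : ℤ) * A n = p * B n := by linarith
      exact_mod_cast this
    have hAB := coprime_AB n
    have h2 : q ∣ B n := by
      have : q ∣ p * B n := ⟨A n, h1.symm⟩
      exact hcop.dvd_of_dvd_mul_left this
    have h3 : B n ∣ q := by
      have : B n ∣ q * A n := ⟨p, by rw [h1]; ring⟩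
      exact hAB.symm.dvd_of_dvd_mul_right this
    have h4 : q = B n := Nat.dvd_antisymm h2 h3
    have h5 : p = A n := by
      rw [h4, mul_comm] at h1
      exact (Nat.eq_of_mul_eq_mul_right (B_pos n).1 h1).symm
    exact ⟨n, g, by rw [hq, h4], by rw [hp, h5]⟩
  · exfalso
    push Not at hY
    have hqbig : B (n0 + 3) < q := by
      by_contra hlt
      push Not at hlt
      have h1 := hsm q hq0 hlt p
      have h1' : c ≤ |(q : ℝ) * (q * e - p)| := by exact_mod_cast h1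
      have h2 : (g : ℝ) ^ 2 * c ≤ M := le_trans (by gcongr) hvq2
      have h3 : (g : ℝ) ≤ M / c + 1 := by
        have h4 : (g : ℝ) ^ 2 ≤ M / c := by rw [le_div_iff₀ hc]; exact h2
        nlinarith
      have h5 : (Q : ℝ) ≤ (M / c + 1) * B (n0 + 3) := by
        rw [hq]
        push_cast
        have : (q : ℝ) ≤ B (n0 + 3) := by exact_mod_cast hlt
        gcongr
      linarith
    have hq7 : 7 ≤ q := by
      have h7 : B 2 = 7 := by simp [B]
      have : B 2 ≤ B (n0 + 3) := B_mono' (by omega)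
      omega
    have hvq3 : |(q : ℝ) * (q * e - p)| ≤ M := by
      have h0 := abs_nonneg ((q : ℝ) * (q * e - p))
      have h1 : (1 : ℝ) ≤ (g : ℝ) ^ 2 := one_le_pow₀ hg1
      nlinarith
    obtain ⟨n, hn1, hn2, hn3⟩ := bframe M hM1 q p hq7 (by exact_mod_cast hvq3) hY
    have hnn0 : n0 ≤ n := by
      by_contra hlt
      push Not at hlt
      have : B (n + 3) ≤ B (n0 + 3) := B_mono' (by omega)
      omega
    rw [← hR] at hn2 hn3
    obtain ⟨s, hs, hest⟩ := frame_est n q p R hn2 hn3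
    obtain ⟨z, hz⟩ : ∃ z : ℤ, z = s * (((q : ℤ) * A (n + 1) - p * B (n + 1)) *
      ((q : ℤ) * A (n + 2) - p * B (n + 2))) := ⟨_, rfl⟩
    rw [← hz] at hest
    have hz0 : z ≠ 0 := by
      rw [hz]
      refine mul_ne_zero ?_ (mul_ne_zero (hY _) (hY _))
      rcases hs with h | h <;> rw [h] <;> norm_num
    have hz1 : (1 : ℝ) ≤ |(z : ℝ)| := by
      rw [← Int.cast_abs]
      exact_mod_cast Int.one_le_abs hz0
    have hzR : |(z : ℝ)| ≤ R ^ 2 := by
      rw [hz]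
      push_cast
      push_cast at hn2 hn3
      rw [abs_mul, abs_mul]
      have hs1 : |(s : ℝ)| = 1 := by rcases hs with h | h <;> rw [h] <;> norm_num
      rw [hs1, one_mul, sq]
      exact mul_le_mul hn2 hn3 (abs_nonneg _) hR0.le
    obtain ⟨y, hy⟩ : ∃ y : ℝ, y = 2 * ((n + 1 : ℕ) : ℝ) + 1 := ⟨_, rfl⟩
    rw [← hy] at hest
    have hyn : (n0 : ℝ) ≤ y := by
      have : (n0 : ℝ) ≤ n := by exact_mod_cast hnn0
      rw [hy]; push_cast; linarith [(Nat.cast_nonneg n : (0 : ℝ) ≤ n)]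
    have hy0 : 0 < y := by
      have : 0 ≤ 8 * M * R ^ 2 / η + 4 * R ^ 2 := by positivity
      linarith
    have hA : R ^ 2 / y ≤ 1 / 4 := by
      rw [div_le_iff₀ hy0]
      have : 0 ≤ 8 * M * R ^ 2 / η := by positivity
      linarith
    have hBB : 4 * M * (R ^ 2 / y) < η / 2 := by
      rw [mul_div_assoc', div_lt_iff₀ hy0]
      have h1 : 8 * M * R ^ 2 / η < y := by
        have : 0 ≤ 4 * R ^ 2 := by positivity
        linarith
      rw [div_lt_iff₀ hη] at h1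
      linarith
    have hest' : |(q : ℝ) * (q * e - p) - (z : ℝ) / 2| ≤ R ^ 2 / y := by exact_mod_cast hest
    have hlow : 1 / 4 ≤ |(q : ℝ) * (q * e - p)| := by
      have h1 : |(z : ℝ) / 2| ≤ |(q : ℝ) * (q * e - p)| + |(q : ℝ) * (q * e - p) - (z : ℝ) / 2| := by
        have := abs_sub ((q : ℝ) * (q * e - p)) ((q : ℝ) * (q * e - p) - (z : ℝ) / 2)
        simpa using this
      rw [abs_div, abs_of_pos (by norm_num : (0 : ℝ) < 2)] at h1
      linarith
    have hg2 : (g : ℝ) ^ 2 ≤ 4 * M := by nlinarith [sq_nonneg (g : ℝ)]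
    have hfin : |((g ^ 2 * z : ℤ) : ℝ) / 2 - L| < η := by
      have h1 : ((g ^ 2 * z : ℤ) : ℝ) / 2 - L =
          -((g : ℝ) ^ 2 * ((q : ℝ) * (q * e - p) - (z : ℝ) / 2)) +
          ((Q : ℝ) * (Q * e - P) - L) := by
        rw [hvq]; push_cast; ring
      rw [h1]
      refine lt_of_le_of_lt (abs_add_le _ _) ?_
      rw [abs_neg, abs_mul, abs_of_nonneg (sq_nonneg (g : ℝ))]
      have h2 : (g : ℝ) ^ 2 * |(q : ℝ) * (q * e - p) - (z : ℝ) / 2| ≤ 4 * M * (R ^ 2 / y) := by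
        gcongr
      linarith
    have hle : |(g ^ 2 * z : ℤ)| ≤ Z := by
      have h1 : |((g ^ 2 * z : ℤ) : ℝ)| ≤ Z := by
        push_cast
        rw [abs_mul, abs_of_nonneg (sq_nonneg (g : ℝ))]
        calc (g : ℝ) ^ 2 * |(z : ℝ)| ≤ 4 * M * R ^ 2 := by gcongr
          _ ≤ (Z : ℝ) := hZ
      rw [← Int.cast_abs] at h1
      exact_mod_cast h1
    have := hgap _ hle
    linarith

end Pool.Agent.H76.EE
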