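import Mathlib

/-! # Pade approximants of the number e (helper76), for MP_58ae59_nt -/

set_option autoImplicit false

namespace Pool.Agent.H76.EE

open Nat (factorial)

/-- denominators -/
def B : ℕ → ℕ
  | 0 => 1
  | 1 => 1
  | (n + 2) => (4 * n + 6) * B (n + 1) + B n

/-- numerators -/
def A : ℕ → ℕ
  | 0 => 1
  | 1 => 3
  | (n + 2) => (4 * n + 6) * A (n + 1) + A n

theorem B_succ (n : ℕ) : B (n + 2) = (4 * n + 6) * B (n + 1) + B n := rfl

theorem A_succ (n : ℕ) : A (n + 2) = (4 * n + 6) * A (n + 1) + A n := rfl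

/-- terms of the remainder series -/
noncomputable def a (n k : ℕ) : ℝ :=
  ((n + k).factorial : ℝ) / ((k.factorial : ℝ) * ((2 * n + k + 1).factorial : ℝ))

theorem a_pos (n k : ℕ) : 0 < a n k := by
  unfold a
  positivity

theorem summable_a (n : ℕ) : Summable (a n) := by
  refine Summable.of_nonneg_of_le (fun k => (a_pos n k).le) (fun k => ?_)
    (Real.summable_pow_div_factorial 1)
  unfold a
  rw [one_pow, div_le_div_iff₀ (by positivity) (by positivity), one_mul]
  have h : ((n + k).factorial : ℝ) ≤ ((2 * n + k + 1).factorial : ℝ) := by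
    exact_mod_cast Nat.factorial_le (by omega)
  have hk : (0 : ℝ) < (k.factorial : ℝ) := by positivity
  nlinarith

/-- the remainder -/
noncomputable def E (n : ℕ) : ℝ := ∑' k, a n k

theorem E_pos (n : ℕ) : 0 < E n :=
  (summable_a n).tsum_pos (fun k => (a_pos n k).le) 0 (a_pos n 0)

theorem a_rec (n k : ℕ) : a n (k + 2) = (4 * n + 6) * a (n + 1) (k + 2) + a (n + 2) k := by
  unfold a
  have h1 : n + (k + 2) = n + k + 2 := by ring
  have h2 : n + 1 + (k + 2) = n + k + 2 + 1 := by ring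
  have h3 : n + 2 + k = n + k + 2 := by ring
  have h4 : 2 * n + (k + 2) + 1 = 2 * n + k + 3 := by ring
  have h5 : 2 * (n + 1) + (k + 2) + 1 = 2 * n + k + 3 + 1 + 1 := by ring
  have h6 : 2 * (n + 2) + k + 1 = 2 * n + k + 3 + 1 + 1 := by ring
  rw [h1, h2, h3, h4, h5, h6, Nat.factorial_succ (n + k + 2), Nat.factorial_succ (2 * n + k + 3 + 1),
    Nat.factorial_succ (2 * n + k + 3), Nat.factorial_succ (k + 1), Nat.factorial_succ k]
  push_cast
  have hF : ((n + k + 2).factorial : ℝ) ≠ 0 := by positivity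
  have hD : ((2 * n + k + 3).factorial : ℝ) ≠ 0 := by positivity
  have hK : (k.factorial : ℝ) ≠ 0 := by positivity
  field_simp
  ring

theorem a_rec0 (n : ℕ) : a n 0 = (4 * n + 6) * a (n + 1) 0 := by
  unfold a
  have h2 : n + 1 + 0 = n + 1 := by ring
  have h5 : 2 * (n + 1) + 0 + 1 = 2 * n + 1 + 1 + 1 := by ring
  rw [h2, h5, Nat.add_zero, Nat.add_zero, Nat.factorial_succ n, Nat.factorial_succ (2 * n + 1 + 1),
    Nat.factorial_succ (2 * n + 1)]
  push_cast
  have hF : (n.factorial : ℝ) ≠ 0 := by positivity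
  have hD : ((2 * n + 1).factorial : ℝ) ≠ 0 := by positivity
  field_simp
  ring

theorem a_rec1 (n : ℕ) : a n 1 = (4 * n + 6) * a (n + 1) 1 := by
  unfold a
  have h5 : 2 * (n + 1) + 1 + 1 = 2 * n + 1 + 1 + 1 + 1 := by ring
  rw [h5, Nat.factorial_succ (n + 1), Nat.factorial_succ (2 * n + 1 + 1 + 1),
    Nat.factorial_succ (2 * n + 1 + 1)]
  push_cast
  have hF : ((n + 1).factorial : ℝ) ≠ 0 := by positivity
  have hD : ((2 * n + 1 + 1).factorial : ℝ) ≠ 0 := by positivity
  field_simp
  ring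

theorem E_rec (n : ℕ) : E n = (4 * n + 6) * E (n + 1) + E (n + 2) := by
  unfold E
  rw [← (summable_a n).sum_add_tsum_nat_add 2, ← (summable_a (n + 1)).sum_add_tsum_nat_add 2]
  simp only [Finset.sum_range_succ, Finset.sum_range_zero, zero_add]
  have hs : Summable fun k => a (n + 1) (k + 2) := (summable_nat_add_iff 2).2 (summable_a (n + 1))
  have h : (fun k => a n (k + 2)) = fun k => (4 * (n : ℝ) + 6) * a (n + 1) (k + 2) + a (n + 2) k := by
    funext k
    exact a_rec n k
  rw [h, (hs.mul_left _).tsum_add (summable_a (n + 2)), tsum_mul_left, a_rec0, a_rec1]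
  ring

/-- the number e -/
noncomputable def e : ℝ := Real.exp 1

theorem e_series : HasSum (fun k : ℕ => 1 / (k.factorial : ℝ)) e := by
  have h := NormedSpace.expSeries_div_hasSum_exp (𝔸 := ℝ) (1 : ℝ)
  rw [← Real.exp_eq_exp_ℝ] at h
  simpa [e] using h

theorem E_zero : E 0 = e - 1 := by
  have h := e_series.summable.sum_add_tsum_nat_add 1
  rw [e_series.tsum_eq] at h
  simp only [Finset.sum_range_one, Nat.factorial_zero, Nat.cast_one, div_one] at h
  unfold E
  have h2 : (fun k => a 0 k) = fun k : ℕ => 1 / ((k + 1).factorial : ℝ) := by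
    funext k
    unfold a
    have h1 : 0 + k = k := by ring
    rw [h1]
    have hK : (k.factorial : ℝ) ≠ 0 := by positivity
    have hK1 : ((k + 1).factorial : ℝ) ≠ 0 := by positivity
    field_simp
  rw [h2]
  linarith

theorem E_one : E 1 = 3 - e := by
  have h2 := e_series.summable.sum_add_tsum_nat_add 2
  have h3 := e_series.summable.sum_add_tsum_nat_add 3
  rw [e_series.tsum_eq] at h2 h3
  have s2 : Summable fun k : ℕ => 1 / ((k + 2).factorial : ℝ) :=
    (summable_nat_add_iff 2).2 e_series.summable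
  have s3 : Summable fun k : ℕ => 1 / ((k + 3).factorial : ℝ) :=
    (summable_nat_add_iff 3).2 e_series.summable
  have c2 : ∑ i ∈ Finset.range 2, 1 / (i.factorial : ℝ) = 2 := by
    norm_num [Finset.sum_range_succ, Nat.factorial]
  have c3 : ∑ i ∈ Finset.range 3, 1 / (i.factorial : ℝ) = 5 / 2 := by
    norm_num [Finset.sum_range_succ, Nat.factorial]
  rw [c2] at h2
  rw [c3] at h3
  unfold E
  have h4 : (fun k => a 1 k) = fun k : ℕ => 1 / ((k + 2).factorial : ℝ) -
      2 * (1 / ((k + 3).factorial : ℝ)) := by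
    funext k
    unfold a
    have h1 : 1 + k = k + 1 := by ring
    have h5 : 2 * 1 + k + 1 = k + 2 + 1 := by ring
    have h6 : k + 3 = k + 2 + 1 := by ring
    rw [h1, h5, h6, Nat.factorial_succ (k + 2), Nat.factorial_succ (k + 1), Nat.factorial_succ k]
    push_cast
    have hK : (k.factorial : ℝ) ≠ 0 := by positivity
    field_simp
    ring
  rw [h4, s2.tsum_sub (s3.mul_left 2), tsum_mul_left]
  linarith

/-- the linear form -/
noncomputable def δ (n : ℕ) : ℝ := B n * e - A n

theorem δ_rec (n : ℕ) : δ (n + 2) = (4 * n + 6) * δ (n + 1) + δ n := by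
  unfold δ
  rw [B_succ, A_succ]
  push_cast
  ring

theorem δ_eq : ∀ n : ℕ, δ n = (-1) ^ n * E n ∧ δ (n + 1) = (-1) ^ (n + 1) * E (n + 1) := by
  intro n
  induction n with
  | zero =>
    constructor
    · unfold δ
      rw [E_zero]
      simp [B, A]
    · unfold δ
      rw [E_one]
      simp [B, A]
  | succ n ih =>
    refine ⟨ih.2, ?_⟩
    rw [δ_rec, ih.1, ih.2, E_rec n]
    ring

theorem δ_eq' (n : ℕ) : δ n = (-1) ^ n * E n := (δ_eq n).1

theorem abs_δ (n : ℕ) : |δ n| = E n := by
  rw [δ_eq', abs_mul, abs_pow, abs_neg, abs_one, one_pow, one_mul, abs_of_pos (E_pos n)]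

theorem cas (n : ℕ) : (B (n + 1) : ℝ) * E n + B n * E (n + 1) = 2 := by
  induction n with
  | zero =>
    rw [E_zero, E_one]
    simp [B]
    ring
  | succ n ih =>
    rw [B_succ]
    rw [E_rec n] at ih
    push_cast
    linarith

theorem det (n : ℕ) : (A (n + 1) : ℤ) * B n - A n * B (n + 1) = 2 * (-1) ^ n := by
  induction n with
  | zero => simp [A, B]
  | succ n ih =>
    rw [A_succ, B_succ]
    push_cast
    rw [pow_succ]
    linarith

theorem B_pos : ∀ n, 0 < B n ∧ 0 < B (n + 1) := by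
  intro n
  induction n with
  | zero => simp [B]
  | succ n ih =>
    refine ⟨ih.2, ?_⟩
    rw [B_succ]
    positivity [ih.1, ih.2]

theorem odd_AB : ∀ n, (Odd (A n) ∧ Odd (B n)) ∧ (Odd (A (n + 1)) ∧ Odd (B (n + 1))) := by
  intro n
  induction n with
  | zero => simp [A, B]; decide
  | succ n ih =>
    refine ⟨ih.2, ?_, ?_⟩
    · rw [A_succ]
      exact Even.add_odd (Even.mul_right ⟨2 * n + 3, by ring⟩ _) ih.1.1
    · rw [B_succ]
      exact Even.add_odd (Even.mul_right ⟨2 * n + 3, by ring⟩ _) ih.1.2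

theorem coprime_AB (n : ℕ) : Nat.Coprime (A n) (B n) := by
  have h := det n
  have h1 := (odd_AB n).1.1
  have hd : ((Nat.gcd (A n) (B n) : ℕ) : ℤ) ∣ 2 * (-1) ^ n := by
    rw [← h]
    apply dvd_sub
    · exact Dvd.dvd.mul_left (by exact_mod_cast Nat.gcd_dvd_right _ _) _
    · exact Dvd.dvd.mul_right (by exact_mod_cast Nat.gcd_dvd_left _ _) _
  have hd2 : ((Nat.gcd (A n) (B n) : ℕ) : ℤ) ∣ 2 := by
    rcases neg_one_pow_eq_or ℤ n with h2 | h2
    · rw [h2] at hd; simpa using hd
    · rw [h2] at hd; simpa using hd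
  have hd3 : Nat.gcd (A n) (B n) ∣ 2 := by exact_mod_cast hd2
  rcases (Nat.dvd_prime Nat.prime_two).1 hd3 with h4 | h4
  · exact h4
  · exfalso
    have h5 : 2 ∣ A n := h4 ▸ Nat.gcd_dvd_left _ _
    rw [← Nat.not_even_iff_odd] at h1
    exact h1 (even_iff_two_dvd.2 h5)

end Pool.Agent.H76.EE
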