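import Pool.Agent.H76.EE.Basic

/-! # Bounds for the approximants (helper76), for MP_58ae59_nt -/

set_option autoImplicit false

namespace Pool.Agent.H76.EE

theorem B_mono (n : ℕ) : B n ≤ B (n + 1) := by
  cases n with
  | zero => simp [B]
  | succ n =>
    rw [B_succ]
    have := (B_pos (n + 1)).1
    nlinarith [(B_pos n).1]

theorem B_mono' {m n : ℕ} (h : m ≤ n) : B m ≤ B n := monotone_nat_of_le_succ B_mono h

theorem B_cube : ∀ n, (2 * n + 1) ^ 3 ≤ 27 * B n ∧ (2 * (n + 1) + 1) ^ 3 ≤ 27 * B (n + 1) := by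
  intro n
  induction n with
  | zero => simp [B]
  | succ n ih =>
    refine ⟨ih.2, ?_⟩
    rw [B_succ]
    have h := ih.2
    have h2 : (2 * (n + 1 + 1) + 1) ^ 3 ≤ (4 * n + 6) * (2 * (n + 1) + 1) ^ 3 := by
      have e1 : (2 * (n + 1 + 1) + 1) ^ 3 = 8 * n ^ 3 + 60 * n ^ 2 + 150 * n + 125 := by ring
      have e2 : (4 * n + 6) * (2 * (n + 1) + 1) ^ 3 =
        32 * n ^ 4 + 192 * n ^ 3 + 432 * n ^ 2 + 432 * n + 162 := by ring
      rw [e1, e2]
      have := Nat.zero_le (n ^ 4)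
      have := Nat.zero_le (n ^ 3)
      have := Nat.zero_le (n ^ 2)
      omega
    calc (2 * (n + 1 + 1) + 1) ^ 3 ≤ (4 * n + 6) * (2 * (n + 1) + 1) ^ 3 := h2
      _ ≤ (4 * n + 6) * (27 * B (n + 1)) := Nat.mul_le_mul_left _ h
      _ ≤ 27 * ((4 * n + 6) * B (n + 1) + B n) := by nlinarith [(B_pos n).1]

theorem E_mono (n : ℕ) : (4 * n + 6) * E (n + 1) ≤ E n := by
  rw [E_rec n]
  linarith [E_pos (n + 2)]

theorem E_le (n : ℕ) : E (n + 1) ≤ E n := by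
  have := E_mono n
  have h := E_pos (n + 1)
  have h0 : (0 : ℝ) ≤ n := Nat.cast_nonneg n
  nlinarith

/-- denominator times remainder -/
noncomputable def u (n : ℕ) : ℝ := B n * E n

theorem Bpos (n : ℕ) : (0 : ℝ) < B n := by exact_mod_cast (B_pos n).1

theorem u_pos (n : ℕ) : 0 < u n := mul_pos (Bpos n) (E_pos n)

theorem BE_le (n : ℕ) : (B (n + 1) : ℝ) * E n ≤ 2 := by
  have := cas n
  have h := mul_pos (Bpos n) (E_pos (n + 1))
  linarith

theorem u_le (n : ℕ) : (2 * (n + 1 : ℕ) + 1) * u (n + 1) ≤ 1 := by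
  have h := BE_le (n + 1)
  rw [B_succ] at h
  unfold u
  push_cast at h ⊢
  have h1 := mul_pos (Bpos n) (E_pos (n + 1))
  nlinarith

theorem BE'_le (n : ℕ) : (B n : ℝ) * E (n + 1) ≤ u (n + 1) := by
  unfold u
  apply mul_le_mul_of_nonneg_right _ (E_pos _).le
  exact_mod_cast B_mono n

theorem u_bounds (n : ℕ) : ∃ d : ℝ, 0 < d ∧ d ≤ 1 ∧ 1 / u (n + 2) = (2 * (n + 2 : ℕ) + 1) + d ∧
    |(2 * (n + 2 : ℕ) + 1) * d - 1 / 2| ≤ 1 / (2 * (n + 2 : ℕ) + 1) := by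
  obtain ⟨t, ht⟩ : ∃ t : ℝ, t = n := ⟨_, rfl⟩
  have ht0 : 0 ≤ t := by rw [ht]; positivity
  have hb0 := Bpos n
  have hb1 := Bpos (n + 1)
  have hb2 := Bpos (n + 2)
  have he2 := E_pos (n + 2)
  have he3 := E_pos (n + 3)
  have he4 := E_pos (n + 4)
  have hB2 : (B (n + 2) : ℝ) = (4 * t + 6) * B (n + 1) + B n := by
    rw [B_succ, ht]; push_cast; ring
  have hB3 : (B (n + 3) : ℝ) = (4 * t + 10) * B (n + 2) + B (n + 1) := by
    have := B_succ (n + 1)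
    rw [this, ht]; push_cast; ring
  have hB01 : (B n : ℝ) ≤ B (n + 1) := by exact_mod_cast B_mono n
  have hE2 : E (n + 2) = (4 * t + 14) * E (n + 3) + E (n + 4) := by
    have := E_rec (n + 2)
    rw [this, ht]; push_cast; ring
  have hE34 : E (n + 4) ≤ E (n + 3) := E_le (n + 3)
  obtain ⟨β, hβ⟩ : ∃ β : ℝ, β = B (n + 1) / B (n + 2) := ⟨_, rfl⟩
  obtain ⟨ρ, hρ⟩ : ∃ ρ : ℝ, ρ = E (n + 3) / E (n + 2) := ⟨_, rfl⟩
  have hβ1 : β ≤ 1 / (4 * t + 6) := by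
    rw [hβ, div_le_div_iff₀ hb2 (by linarith), hB2]; nlinarith
  have hβ2 : 1 / (4 * t + 7) ≤ β := by
    rw [hβ, div_le_div_iff₀ (by linarith) hb2, hB2]; nlinarith
  have hρ1 : ρ ≤ 1 / (4 * t + 14) := by
    rw [hρ, div_le_div_iff₀ he2 (by linarith), hE2]; nlinarith
  have hρ2 : 1 / (4 * t + 15) ≤ ρ := by
    rw [hρ, div_le_div_iff₀ (by linarith) he2, hE2]; nlinarith
  have hβ0 : 0 < β := by rw [hβ]; positivity
  have hρ0 : 0 < ρ := by rw [hρ]; positivity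
  have hy : (2 * ((n + 2 : ℕ) : ℝ) + 1) = 2 * t + 5 := by rw [ht]; push_cast; ring
  refine ⟨(β + ρ) / 2, by positivity, ?_, ?_, ?_⟩
  · have h1 : 1 / (4 * t + 6) ≤ 1 := by rw [div_le_one (by linarith)]; linarith
    have h2 : 1 / (4 * t + 14) ≤ 1 := by rw [div_le_one (by linarith)]; linarith
    linarith
  · have hc := cas (n + 2)
    change (B (n + 3) : ℝ) * E (n + 2) + B (n + 2) * E (n + 3) = 2 at hc
    have hu : u (n + 2) * ((4 * t + 10) + β + ρ) = 2 := by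
      rw [← hc, hB3, hβ, hρ]
      unfold u
      field_simp
    rw [hy, div_eq_iff (u_pos _).ne']
    linarith
  · rw [hy, abs_le]
    have h5 : (0 : ℝ) < 2 * t + 5 := by linarith
    constructor
    · have h1 : -(1 / (2 * t + 5)) ≤
        (2 * t + 5) * ((1 / (4 * t + 7) + 1 / (4 * t + 15)) / 2) - 1 / 2 := by
        rw [← sub_nonneg]
        have : (2 * t + 5) * ((1 / (4 * t + 7) + 1 / (4 * t + 15)) / 2) - 1 / 2 - -(1 / (2 * t + 5)) =
          ((-4 * t + 5) * (2 * t + 5) + 2 * (4 * t + 7) * (4 * t + 15)) /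
            (2 * (4 * t + 7) * (4 * t + 15) * (2 * t + 5)) := by
          field_simp
          ring
        rw [this]
        apply div_nonneg
        · nlinarith
        · positivity
      have h2 : (2 * t + 5) * ((1 / (4 * t + 7) + 1 / (4 * t + 15)) / 2) ≤
        (2 * t + 5) * ((β + ρ) / 2) := by
        apply mul_le_mul_of_nonneg_left _ h5.le
        linarith
      linarith
    · have h1 : (2 * t + 5) * ((1 / (4 * t + 6) + 1 / (4 * t + 14)) / 2) - 1 / 2 ≤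
        1 / (2 * t + 5) := by
        rw [← sub_nonneg]
        have : 1 / (2 * t + 5) - ((2 * t + 5) * ((1 / (4 * t + 6) + 1 / (4 * t + 14)) / 2) - 1 / 2) =
          ((4 * t + 6) * (4 * t + 14) - 8 * (2 * t + 5)) /
            ((4 * t + 6) * (4 * t + 14) * (2 * t + 5)) := by
          field_simp
          ring
        rw [this]
        apply div_nonneg
        · nlinarith
        · positivity
      have h2 : (2 * t + 5) * ((β + ρ) / 2) ≤
        (2 * t + 5) * ((1 / (4 * t + 6) + 1 / (4 * t + 14)) / 2) := by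
        apply mul_le_mul_of_nonneg_left _ h5.le
        linarith
      linarith

/-- frame formula -/
theorem frame (n : ℕ) (q p : ℤ) :
    4 * ((q : ℝ) * (q * e - p)) =
      ((B n : ℝ) * ((q * A (n + 1) - p * B (n + 1) : ℤ) : ℝ) -
        B (n + 1) * ((q * A n - p * B n : ℤ) : ℝ)) *
      (δ n * ((q * A (n + 1) - p * B (n + 1) : ℤ) : ℝ) -
        δ (n + 1) * ((q * A n - p * B n : ℤ) : ℝ)) := by
  have hd : ((A (n + 1) : ℝ) * B n - A n * B (n + 1)) = 2 * (-1) ^ n := by exact_mod_cast det n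
  have h1 : ((B n : ℝ) * ((q * A (n + 1) - p * B (n + 1) : ℤ) : ℝ) -
        B (n + 1) * ((q * A n - p * B n : ℤ) : ℝ)) = q * (2 * (-1) ^ n) := by
    rw [← hd]; push_cast; ring
  have h2 : (δ n * ((q * A (n + 1) - p * B (n + 1) : ℤ) : ℝ) -
        δ (n + 1) * ((q * A n - p * B n : ℤ) : ℝ)) = (q * e - p) * (2 * (-1) ^ n) := by
    rw [← hd]; unfold δ; push_cast; ring
  rw [h1, h2]
  have h3 : ((-1 : ℝ) ^ n) * (-1) ^ n = 1 := by
    rw [← mul_pow]; norm_num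
  linear_combination (4 * ((q : ℝ) * (q * e - p))) * (-h3)

/-- frame estimate -/
theorem frame_est (n : ℕ) (q p : ℤ) (R : ℝ)
    (h0 : |((q * A (n + 1) - p * B (n + 1) : ℤ) : ℝ)| ≤ R)
    (h1 : |((q * A (n + 2) - p * B (n + 2) : ℤ) : ℝ)| ≤ R) :
    ∃ s : ℤ, (s = 1 ∨ s = -1) ∧
    |(q : ℝ) * (q * e - p) -
      ((s * ((q * A (n + 1) - p * B (n + 1)) * (q * A (n + 2) - p * B (n + 2))) : ℤ) : ℝ) / 2|
      ≤ R ^ 2 / (2 * (n + 1 : ℕ) + 1) := by
  have hf := frame (n + 1) q p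
  change 4 * ((q : ℝ) * (q * e - p)) =
      ((B (n + 1) : ℝ) * ((q * A (n + 2) - p * B (n + 2) : ℤ) : ℝ) -
        B (n + 2) * ((q * A (n + 1) - p * B (n + 1) : ℤ) : ℝ)) *
      (δ (n + 1) * ((q * A (n + 2) - p * B (n + 2) : ℤ) : ℝ) -
        δ (n + 2) * ((q * A (n + 1) - p * B (n + 1) : ℤ) : ℝ)) at hf
  refine ⟨-(-1) ^ (n + 1), ?_, ?_⟩
  · rcases neg_one_pow_eq_or ℤ (n + 1) with h | h
    · right; rw [h]
    · left; rw [h]; ring
  obtain ⟨X, hX⟩ : ∃ X : ℝ, X = ((q * A (n + 1) - p * B (n + 1) : ℤ) : ℝ) := ⟨_, rfl⟩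
  obtain ⟨Y, hY⟩ : ∃ Y : ℝ, Y = ((q * A (n + 2) - p * B (n + 2) : ℤ) : ℝ) := ⟨_, rfl⟩
  rw [← hX, ← hY] at hf
  rw [← hX] at h0
  rw [← hY] at h1
  have hprod : ((-(-1) ^ (n + 1) * ((q * A (n + 1) - p * B (n + 1)) *
      (q * A (n + 2) - p * B (n + 2))) : ℤ) : ℝ) = -(-1) ^ (n + 1) * (X * Y) := by
    rw [hX, hY]
    push_cast
    ring
  rw [hprod]
  obtain ⟨ε, hε⟩ : ∃ ε : ℝ, ε = (-1) ^ (n + 1) := ⟨_, rfl⟩
  have hδ1 : δ (n + 1) = ε * E (n + 1) := by rw [δ_eq', hε]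
  have hδ2 : δ (n + 2) = - ε * E (n + 2) := by rw [δ_eq', hε, pow_succ]; ring
  have hεabs : |ε| = 1 := by rw [hε, abs_pow, abs_neg, abs_one, one_pow]
  rw [hδ1, hδ2] at hf
  rw [← hε]
  have hc : (B (n + 2) : ℝ) * E (n + 1) + B (n + 1) * E (n + 2) = 2 := cas (n + 1)
  have hid : (q : ℝ) * (q * e - p) - -ε * (X * Y) / 2 =
      ε * ((u (n + 1) * Y ^ 2 - u (n + 2) * X ^ 2 + 2 * (X * Y) * (B (n + 1) * E (n + 2))) / 4) := by
    have h4 : (q : ℝ) * (q * e - p) = ((B (n + 1) * Y - B (n + 2) * X) *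
      (ε * E (n + 1) * Y - -ε * E (n + 2) * X)) / 4 := by linarith
    rw [h4]
    unfold u
    linear_combination (- ε * X * Y / 4) * hc
  rw [hid, abs_mul, hεabs, one_mul]
  have hu1 := u_le n
  have hu2 := u_le (n + 1)
  change (2 * ((n + 1 + 1 : ℕ) : ℝ) + 1) * u (n + 2) ≤ 1 at hu2
  have hbe : (B (n + 1) : ℝ) * E (n + 2) ≤ u (n + 2) := BE'_le (n + 1)
  have hbe0 : 0 < (B (n + 1) : ℝ) * E (n + 2) := mul_pos (Bpos _) (E_pos _)
  have hup1 := u_pos (n + 1)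
  have hup2 := u_pos (n + 2)
  obtain ⟨y, hy⟩ : ∃ y : ℝ, y = 2 * ((n + 1 : ℕ) : ℝ) + 1 := ⟨_, rfl⟩
  have hy0 : 0 < y := by rw [hy]; positivity
  rw [← hy] at hu1 ⊢
  have hu2' : y * u (n + 2) ≤ 1 := by
    refine le_trans ?_ hu2
    apply mul_le_mul_of_nonneg_right _ hup2.le
    rw [hy]; push_cast; linarith
  have hR : 0 ≤ R := le_trans (abs_nonneg _) h0
  have hX2 : X ^ 2 ≤ R ^ 2 := by rw [← sq_abs]; exact pow_le_pow_left₀ (abs_nonneg _) h0 2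
  have hY2 : Y ^ 2 ≤ R ^ 2 := by rw [← sq_abs Y]; exact pow_le_pow_left₀ (abs_nonneg _) h1 2
  have hXY : |X * Y| ≤ R ^ 2 := by
    rw [abs_mul, sq]; exact mul_le_mul h0 h1 (abs_nonneg _) hR
  have h5 : |(u (n + 1) * Y ^ 2 - u (n + 2) * X ^ 2 + 2 * (X * Y) * (B (n + 1) * E (n + 2))) / 4| ≤
      (u (n + 1) * R ^ 2 + u (n + 2) * R ^ 2 + 2 * R ^ 2 * u (n + 2)) / 4 := by
    rw [abs_div, abs_of_pos (by norm_num : (0 : ℝ) < 4)]
    apply div_le_div_of_nonneg_right _ (by norm_num)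
    have t1 : |u (n + 1) * Y ^ 2 - u (n + 2) * X ^ 2 + 2 * (X * Y) * (B (n + 1) * E (n + 2))| ≤
        |u (n + 1) * Y ^ 2| + |u (n + 2) * X ^ 2| + |2 * (X * Y) * (B (n + 1) * E (n + 2))| := by
      refine (abs_add_le _ _).trans ?_
      gcongr
      exact abs_sub _ _
    refine t1.trans ?_
    have t2 : |u (n + 1) * Y ^ 2| ≤ u (n + 1) * R ^ 2 := by
      rw [abs_of_nonneg (by positivity)]; gcongr
    have t3 : |u (n + 2) * X ^ 2| ≤ u (n + 2) * R ^ 2 := by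
      rw [abs_of_nonneg (by positivity)]; gcongr
    have t4 : |2 * (X * Y) * (B (n + 1) * E (n + 2))| ≤ 2 * R ^ 2 * u (n + 2) := by
      rw [abs_mul, abs_mul, abs_of_pos (by norm_num : (0 : ℝ) < 2), abs_of_pos hbe0]
      gcongr
    linarith
  refine h5.trans ?_
  rw [div_le_div_iff₀ (by norm_num) hy0]
  have : 0 ≤ R ^ 2 := sq_nonneg _
  nlinarith

end Pool.Agent.H76.EE
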