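import Pool.Agent.H76.EE.Base

/-! # The descent (helper76), for MP_58ae59_nt -/

set_option autoImplicit false

namespace Pool.Agent.H76.EE

theorem E_mono' {m n : ℕ} (h : m ≤ n) : E n ≤ E m := antitone_nat_of_succ_le E_le h

theorem e_irrational : Irrational e := by
  rintro ⟨r, hr⟩
  have hb : 0 < r.den := r.den_pos
  obtain ⟨n, hn⟩ : ∃ n : ℕ, 2 * r.den < B (n + 1) := by
    refine ⟨27 * (2 * r.den), ?_⟩
    have h := (B_cube (27 * (2 * r.den))).2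
    have h2 : 27 * (2 * r.den) + 1 ≤ (2 * (27 * (2 * r.den) + 1) + 1) ^ 3 := by
      calc 27 * (2 * r.den) + 1 ≤ 2 * (27 * (2 * r.den) + 1) + 1 := by omega
        _ = (2 * (27 * (2 * r.den) + 1) + 1) ^ 1 := by ring
        _ ≤ _ := Nat.pow_le_pow_right (by omega) (by omega)
    omega
  have hE := BE_le n
  have hEp := E_pos n
  have h1 : E n * r.den < 1 := by
    have h2 : (2 * r.den : ℝ) < B (n + 1) := by exact_mod_cast hn
    nlinarith
  have hden : (r.den : ℝ) ≠ 0 := by exact_mod_cast hb.ne'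
  have he : e * r.den = r.num := by
    rw [← hr]
    have := Rat.mul_den_eq_num r
    exact_mod_cast this
  have h3 : δ n * r.den = ((B n * r.num - A n * r.den : ℤ) : ℝ) := by
    unfold δ
    push_cast
    rw [← he]
    ring
  have h4 : |((B n * r.num - A n * r.den : ℤ) : ℝ)| < 1 := by
    rw [← h3, abs_mul, abs_δ, Nat.abs_cast]
    exact h1
  have h5 : (B n * r.num - A n * r.den : ℤ) = 0 := by
    rw [← Int.cast_abs] at h4
    have : |(B n * r.num - A n * r.den : ℤ)| < 1 := by exact_mod_cast h4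
    exact Int.abs_lt_one_iff.1 this
  rw [h5] at h3
  have h6 : |δ n * r.den| = 0 := by rw [h3]; simp
  rw [abs_mul, abs_δ, Nat.abs_cast] at h6
  have : 0 < E n * r.den := mul_pos hEp (by exact_mod_cast hb)
  linarith

theorem step (α β : ℕ) (hα : 0 < α) (hβ : 0 < β) (L : ℝ) (hL : |L| = e * α / β) (C : ℝ) :
    ∃ C' : ℝ, ∀ T : ℕ, ∃ Q0 : ℕ, ∀ n G : ℕ, Q0 ≤ G * B n →
      |((G * B n : ℕ) : ℝ) * ((G * B n : ℕ) * e - (G * A n : ℕ)) - L| ≤ C / (G * B n : ℕ) →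
      T ≤ n ∧ |((α * (2 * n + 1) : ℕ) : ℝ) * ((α * (2 * n + 1) : ℕ) * e - (β * G ^ 2 : ℕ)) -
        (-(e * α ^ 2 / 2))| ≤ C' / (α * (2 * n + 1) : ℕ) := by
  have he0 : 0 < e := Real.exp_pos 1
  have hαr : (0 : ℝ) < α := by exact_mod_cast hα
  have hβr : (0 : ℝ) < β := by exact_mod_cast hβ
  refine ⟨α * (e * α ^ 2 + 54 * α * β * |C|), fun T => ?_⟩
  obtain ⟨M, hM⟩ : ∃ M : ℝ, M = |L| + |C| := ⟨_, rfl⟩
  have hM0 : 0 ≤ M := by rw [hM]; positivity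
  obtain ⟨Q0, hQ0⟩ := exists_nat_gt ((M / E (T + 2) + 1) * B (T + 2) + 1)
  refine ⟨Q0, fun n G hQ h => ?_⟩
  have hEp := E_pos (T + 2)
  have hBp := Bpos (T + 2)
  have hpr : 0 < (M / E (T + 2) + 1) * B (T + 2) := by positivity
  have hQr : (Q0 : ℝ) ≤ ((G * B n : ℕ) : ℝ) := by exact_mod_cast hQ
  have hQ1 : (1 : ℝ) < ((G * B n : ℕ) : ℝ) := by linarith
  have hG : 0 < G := by
    rcases Nat.eq_zero_or_pos G with h0 | h0
    · rw [h0] at hQ1; simp at hQ1; linarith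
    · exact h0
  have hGr : (1 : ℝ) ≤ G := by exact_mod_cast hG
  have hval : ((G * B n : ℕ) : ℝ) * ((G * B n : ℕ) * e - (G * A n : ℕ)) = G ^ 2 * (B n * δ n) := by
    unfold δ; push_cast; ring
  have habs : |((G * B n : ℕ) : ℝ) * ((G * B n : ℕ) * e - (G * A n : ℕ))| = G ^ 2 * u n := by
    rw [hval, abs_mul, abs_mul, abs_δ, abs_of_pos (Bpos n), abs_of_nonneg (sq_nonneg _)]
    rfl
  have hτ : |(G : ℝ) ^ 2 * u n - e * α / β| ≤ C / (G * B n : ℕ) := by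
    rw [← habs, ← hL]
    exact (abs_abs_sub_abs_le _ _).trans h
  have hCQ : C / ((G * B n : ℕ) : ℝ) ≤ |C| / B n := by
    have h1 : C / ((G * B n : ℕ) : ℝ) ≤ |C| / ((G * B n : ℕ) : ℝ) := by
      gcongr
      exact le_abs_self C
    refine h1.trans ?_
    have h2 : (B n : ℝ) ≤ ((G * B n : ℕ) : ℝ) := by
      push_cast
      nlinarith [Bpos n]
    have := Bpos n
    gcongr
  have hCQ2 : C / ((G * B n : ℕ) : ℝ) ≤ |C| := by
    refine hCQ.trans ?_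
    rw [div_le_iff₀ (Bpos n)]
    have : (1 : ℝ) ≤ B n := by exact_mod_cast (B_pos n).1
    nlinarith [abs_nonneg C]
  have hGu : (G : ℝ) ^ 2 * u n ≤ M := by
    have := (abs_le.1 hτ).2
    rw [hM, hL]
    linarith
  have hTn : T + 2 ≤ n := by
    by_contra hlt
    push Not at hlt
    have h1 : E (T + 2) ≤ u n := by
      have h2 : E (T + 2) ≤ E n := E_mono' (by omega)
      have h3 : (1 : ℝ) ≤ B n := by exact_mod_cast (B_pos n).1
      unfold u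
      nlinarith [E_pos n]
    have h2 : (G : ℝ) ^ 2 ≤ M / E (T + 2) := by
      rw [le_div_iff₀ hEp]
      refine le_trans ?_ hGu
      gcongr
    have h3 : (G : ℝ) ≤ M / E (T + 2) + 1 := by nlinarith
    have h4 : (B n : ℝ) ≤ B (T + 2) := by exact_mod_cast B_mono' (by omega)
    have h5 : ((G * B n : ℕ) : ℝ) ≤ (M / E (T + 2) + 1) * B (T + 2) := by
      push_cast
      gcongr
    linarith
  refine ⟨by omega, ?_⟩
  obtain ⟨k, rfl⟩ : ∃ k, n = k + 2 := ⟨n - 2, by omega⟩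
  obtain ⟨d, hd0, hd1, hdu, hdy⟩ := u_bounds k
  obtain ⟨y, hy⟩ : ∃ y : ℝ, y = 2 * ((k + 2 : ℕ) : ℝ) + 1 := ⟨_, rfl⟩
  rw [← hy] at hdu hdy
  have hcast : ((α * (2 * (k + 2) + 1) : ℕ) : ℝ) = α * y := by rw [hy]; push_cast; ring
  rw [hcast]
  have hy1 : 1 ≤ y := by rw [hy]; push_cast; linarith [(Nat.cast_nonneg k : (0 : ℝ) ≤ k)]
  obtain ⟨τ, hτdef⟩ : ∃ τ : ℝ, τ = (G : ℝ) ^ 2 * u (k + 2) - e * α / β := ⟨_, rfl⟩
  rw [← hτdef] at hτ
  have hG2 : (G : ℝ) ^ 2 = (e * α / β + τ) * (y + d) := by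
    rw [← hdu, hτdef]
    field_simp [(u_pos (k + 2)).ne']
    ring
  have hid : (α * y) * (α * y * e - (β * G ^ 2 : ℕ)) - -(e * α ^ 2 / 2) =
      -(e * α ^ 2 * (y * d - 1 / 2)) - α * β * τ * (y * (y + d)) := by
    push_cast
    rw [hG2]
    field_simp
    ring
  rw [hid]
  have hτ2 : |τ| ≤ |C| / B (k + 2) := hτ.trans hCQ
  have hcube : y ^ 3 ≤ 27 * B (k + 2) := by
    have := (B_cube (k + 2)).1
    rw [hy]
    exact_mod_cast this
  have hbp := Bpos (k + 2)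
  have hyy : y * (y + d) ≤ 2 * y ^ 2 := by nlinarith
  have hα3 : |α * β * τ * (y * (y + d))| ≤ 54 * α * β * |C| / y := by
    rw [abs_mul, abs_mul, abs_mul, Nat.abs_cast, Nat.abs_cast, abs_of_nonneg (by positivity : 0 ≤ y * (y + d))]
    have h1 : α * β * |τ| * (y * (y + d)) ≤ α * β * (|C| / B (k + 2)) * (2 * y ^ 2) := by gcongr
    refine h1.trans ?_
    have h2 : (α : ℝ) * β * (|C| / B (k + 2)) * (2 * y ^ 2) = (α * β * |C|) * (2 * y ^ 2 / B (k + 2)) := by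
      ring
    have h3 : 2 * y ^ 2 / B (k + 2) ≤ 54 / y := by
      rw [div_le_div_iff₀ hbp (by linarith)]
      nlinarith
    rw [h2]
    have h4 : 54 * (α : ℝ) * β * |C| / y = (α * β * |C|) * (54 / y) := by ring
    rw [h4]
    gcongr
  have hα4 : |e * (α : ℝ) ^ 2 * (y * d - 1 / 2)| ≤ e * α ^ 2 / y := by
    rw [abs_mul, abs_of_nonneg (by positivity : 0 ≤ e * (α : ℝ) ^ 2)]
    calc e * (α : ℝ) ^ 2 * |y * d - 1 / 2| ≤ e * α ^ 2 * (1 / y) := by gcongr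
      _ = e * α ^ 2 / y := by ring
  have hfin : (α : ℝ) * (e * α ^ 2 + 54 * α * β * |C|) / (α * y) =
      e * α ^ 2 / y + 54 * α * β * |C| / y := by
    field_simp
  rw [hfin]
  refine (abs_sub _ _).trans ?_
  rw [abs_neg]
  exact add_le_add hα4 hα3

theorem two_adic (κ g a b : ℕ) (hκ : 0 < κ) (hg : 0 < g) (ha : Odd a) (hb : Odd b)
    (h : κ ^ 4 * a = 2 * g ^ 2 * b) : False := by
  have hp : Fact (Nat.Prime 2) := ⟨Nat.prime_two⟩
  have ha0 : a ≠ 0 := by rintro rfl; simp at ha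
  have hb0 : b ≠ 0 := by rintro rfl; simp at hb
  have hva : padicValNat 2 a = 0 := by
    apply padicValNat.eq_zero_of_not_dvd
    rw [← even_iff_two_dvd, Nat.not_even_iff_odd]; exact ha
  have hvb : padicValNat 2 b = 0 := by
    apply padicValNat.eq_zero_of_not_dvd
    rw [← even_iff_two_dvd, Nat.not_even_iff_odd]; exact hb
  have h1 : padicValNat 2 (κ ^ 4 * a) = 4 * padicValNat 2 κ := by
    rw [padicValNat.mul (pow_ne_zero _ hκ.ne') ha0, padicValNat.pow, hva, add_zero]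
  have h2 : padicValNat 2 (2 * g ^ 2 * b) = 1 + 2 * padicValNat 2 g := by
    rw [padicValNat.mul (mul_ne_zero two_ne_zero (pow_ne_zero _ hg.ne')) hb0,
      padicValNat.mul two_ne_zero (pow_ne_zero _ hg.ne'), padicValNat.pow, hvb, add_zero,
      padicValNat_self]
  rw [h, h2] at h1
  omega

theorem irr (α : ℕ) (hα : 0 < α) (c : ℕ) (hc : 0 < c) : Irrational (e * α / c) := by
  have h := (e_irrational.mul_natCast hα.ne').div_natCast hc.ne'
  exact h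

theorem irr' (α : ℕ) (hα : 0 < α) : Irrational (-(e * (α : ℝ) ^ 2 / 2)) := by
  have h := (irr (α ^ 2) (pow_pos hα 2) 2 two_pos).neg
  push_cast at h
  exact h

theorem chain (κ : ℕ) (hκ : 0 < κ) (C : ℝ) : ∃ Q0 : ℕ, ∀ Q P : ℕ, Q0 ≤ Q →
    ¬ |(Q : ℝ) * (Q * e - P) - e * κ ^ 2 / 3| ≤ C / Q := by
  have he0 : 0 < e := Real.exp_pos 1
  have hκ2 : 0 < κ ^ 2 := pow_pos hκ 2
  have hκ4 : 0 < κ ^ 4 := pow_pos hκ 4
  -- first level
  obtain ⟨Q1, h1⟩ := base e_irrational (e * (κ ^ 2 : ℕ) / (3 : ℕ)) (irr (κ ^ 2) hκ2 3 (by norm_num)) C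
  obtain ⟨C1, s1⟩ := step (κ ^ 2) 3 hκ2 (by norm_num) (e * (κ ^ 2 : ℕ) / (3 : ℕ))
    (abs_of_pos (by positivity)) C
  -- second level
  obtain ⟨Q2, h2⟩ := base e_irrational (-(e * ((κ ^ 2 : ℕ) : ℝ) ^ 2 / 2)) (irr' (κ ^ 2) hκ2) C1
  obtain ⟨C2, s2⟩ := step (κ ^ 4) 2 hκ4 two_pos (-(e * ((κ ^ 2 : ℕ) : ℝ) ^ 2 / 2))
    (by rw [abs_neg, abs_of_pos (by positivity)]; push_cast; ring) C1
  -- third level
  obtain ⟨Q3, h3⟩ := base e_irrational (-(e * ((κ ^ 4 : ℕ) : ℝ) ^ 2 / 2)) (irr' (κ ^ 4) hκ4) C2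
  obtain ⟨Q2', s2'⟩ := s2 Q3
  obtain ⟨Q1', s1'⟩ := s1 (max Q2 Q2')
  refine ⟨max Q1 Q1', fun Q P hQ hQP => ?_⟩
  obtain ⟨n, G, hQG, hPG⟩ := h1 Q P (le_trans (le_max_left _ _) hQ) (by
    push_cast
    exact hQP)
  obtain ⟨hn, hn'⟩ := s1' n G (by rw [← hQG]; exact le_trans (le_max_right _ _) hQ) (by
    rw [← hQG, ← hPG]
    push_cast
    exact hQP)
  have hbig1 : max Q2 Q2' ≤ κ ^ 2 * (2 * n + 1) := by
    refine hn.trans ?_
    nlinarith
  obtain ⟨n2, G2, hQ2, hP2⟩ := h2 _ _ (le_trans (le_max_left _ _) hbig1) hn'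
  rw [hQ2, hP2] at hn'
  obtain ⟨hn2, hn2'⟩ := s2' n2 G2 (by rw [← hQ2]; exact le_trans (le_max_right _ _) hbig1) hn'
  have hbig2 : Q3 ≤ κ ^ 4 * (2 * n2 + 1) := by
    refine hn2.trans ?_
    nlinarith
  obtain ⟨n3, G3, hQ3, hP3⟩ := h3 _ _ hbig2 hn2'
  -- contradiction
  have hG2 : 0 < G2 := by
    rcases Nat.eq_zero_or_pos G2 with h | h
    · rw [h, zero_mul] at hQ2
      have : 0 < κ ^ 2 * (2 * n + 1) := by positivity
      omega
    · exact h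
  have hodd := (odd_AB n3).1
  apply two_adic κ G2 ((2 * n2 + 1) * A n3) (B n3) hκ hG2
  · exact (Odd.mul ⟨n2, rfl⟩ hodd.1)
  · exact hodd.2
  · calc κ ^ 4 * ((2 * n2 + 1) * A n3) = (κ ^ 4 * (2 * n2 + 1)) * A n3 := by ring
      _ = G3 * B n3 * A n3 := by rw [hQ3]
      _ = (G3 * A n3) * B n3 := by ring
      _ = 2 * G2 ^ 2 * B n3 := by rw [← hP3]

end Pool.Agent.H76.EE
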