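import Pool.Agent.H76.EE.Chain

/-! # Powers of rational numbers with small denominators (helper76), for MP_58ae59_nt -/

set_option autoImplicit false

namespace Pool.Agent.H76.EE

theorem log_est (z : ℝ) (hz : 0 < z) (hz1 : z ≤ 1 / 2) :
    |Real.log (1 + z) - Real.log (1 - z) - (2 * z + 2 * z ^ 3 / 3)| ≤ 4 * z ^ 5 := by
  have h1 := Real.abs_log_sub_add_sum_range_le (x := z) (by rw [abs_of_pos hz]; linarith) 4
  have h2 := Real.abs_log_sub_add_sum_range_le (x := -z) (by rw [abs_neg, abs_of_pos hz]; linarith) 4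
  rw [abs_of_pos hz] at h1
  rw [abs_neg, abs_of_pos hz] at h2
  have h3 : z ^ (4 + 1) / (1 - z) ≤ 2 * z ^ 5 := by
    rw [div_le_iff₀ (by linarith)]
    have : 0 ≤ z ^ 5 * (1 / 2 - z) := mul_nonneg (by positivity) (by linarith)
    have h5 : z ^ (4 + 1) = z ^ 5 := by norm_num
    rw [h5]
    linarith
  have h1' := abs_le.1 (h1.trans h3)
  have h2' := abs_le.1 (h2.trans h3)
  simp only [Finset.sum_range_succ, Finset.sum_range_zero, zero_add] at h1' h2'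
  norm_num at h1' h2'
  rw [abs_le]
  constructor <;> nlinarith [h1'.1, h1'.2, h2'.1, h2'.2]

theorem ratio_est (z Λ : ℝ) (hz : 0 < z) (hz1 : z ≤ 1 / 2) (hΛ : |Λ - (2 * z + 2 * z ^ 3 / 3)| ≤ 4 * z ^ 5) :
    |(Λ - 2 * z) / (z ^ 2 * Λ) - 1 / 3| ≤ 3 * z ^ 2 := by
  obtain ⟨h1, h2⟩ := abs_le.1 hΛ
  have hz3 : 0 < z ^ 3 := by positivity
  have hz5 : 0 < z ^ 5 := by positivity
  have hz2 : z ^ 2 ≤ 1 / 4 := by nlinarith
  have hz53 : z ^ 5 = z ^ 3 * z ^ 2 := by ring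
  have hΛ2 : 2 * z ≤ Λ + z ^ 3 := by nlinarith
  have hΛ3 : 3 / 2 * z ≤ Λ := by nlinarith
  have hΛ0 : 0 < Λ := by linarith
  have hid : (Λ - 2 * z) / (z ^ 2 * Λ) - 1 / 3 = (3 * (Λ - 2 * z) - z ^ 2 * Λ) / (3 * z ^ 2 * Λ) := by
    field_simp
  rw [hid, abs_div, abs_of_pos (by positivity : 0 < 3 * z ^ 2 * Λ), div_le_iff₀ (by positivity)]
  have hnum : |3 * (Λ - 2 * z) - z ^ 2 * Λ| ≤ 27 / 2 * z ^ 5 := by
    obtain ⟨r, hr⟩ : ∃ r, r = Λ - (2 * z + 2 * z ^ 3 / 3) := ⟨_, rfl⟩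
    have hΛr : Λ = r + (2 * z + 2 * z ^ 3 / 3) := by rw [hr]; ring
    rw [← hr] at h1 h2
    rw [hΛr, abs_le]
    constructor <;> nlinarith
  refine hnum.trans ?_
  have : 27 / 2 * z ^ 5 ≤ 3 * z ^ 2 * (3 * z ^ 2 * (3 / 2 * z)) := by
    nlinarith
  refine this.trans ?_
  have h9 : 0 ≤ 3 * z ^ 2 := by positivity
  gcongr

/-- the key estimate: a relation `e^(ke) = (1 + c/b)^m` makes `2cm / (k(2b+c))` a special
approximation of `e` -/
theorem key (m k b c : ℕ) (hm : 0 < m) (hk : 0 < k) (hb : 0 < b) (hc : 0 < c) (hcb : c ≤ b)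
    (h : ((b + c : ℝ) / b) ^ m = Real.exp (k * e)) :
    |((k * (2 * b + c) : ℕ) : ℝ) * ((k * (2 * b + c) : ℕ) * e - (2 * c * m : ℕ)) -
      e * ((k * c : ℕ) : ℝ) ^ 2 / 3| ≤ (3 * ((k * c : ℕ) : ℝ) ^ 4 * e) / (k * (2 * b + c) : ℕ) := by
  have he0 : 0 < e := Real.exp_pos 1
  have hmr : (0 : ℝ) < m := by exact_mod_cast hm
  have hkr : (0 : ℝ) < k := by exact_mod_cast hk
  have hbr : (0 : ℝ) < b := by exact_mod_cast hb
  have hcr : (0 : ℝ) < c := by exact_mod_cast hc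
  have hcbr : (c : ℝ) ≤ b := by exact_mod_cast hcb
  obtain ⟨w, hw⟩ : ∃ w : ℝ, w = 2 * b + c := ⟨_, rfl⟩
  have hw0 : 0 < w := by rw [hw]; positivity
  obtain ⟨z, hz⟩ : ∃ z : ℝ, z = c / w := ⟨_, rfl⟩
  have hz0 : 0 < z := by rw [hz]; positivity
  have hz1 : z ≤ 1 / 2 := by
    rw [hz, div_le_div_iff₀ hw0 two_pos, hw]; linarith
  have hcz : (c : ℝ) = z * w := by rw [hz]; field_simp
  obtain ⟨Λ, hΛ⟩ : ∃ Λ : ℝ, Λ = Real.log (1 + z) - Real.log (1 - z) := ⟨_, rfl⟩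
  have hlog : Real.log ((b + c : ℝ) / b) = Λ := by
    rw [hΛ, ← Real.log_div (by linarith) (by linarith)]
    congr 1
    rw [hz, hw]
    have : (2 * b + c : ℝ) ≠ 0 := by positivity
    have h2 : (1 - c / (2 * b + c) : ℝ) ≠ 0 := by
      have : (1 - c / (2 * b + c) : ℝ) = 2 * b / (2 * b + c) := by field_simp; ring
      rw [this]
      positivity
    field_simp
    ring
  have hme : m * Λ = k * e := by
    rw [← hlog, ← Real.log_pow, h, Real.log_exp]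
  have hest := log_est z hz0 hz1
  rw [← hΛ] at hest
  have hrat := ratio_est z Λ hz0 hz1 hest
  have hΛ0 : 0 < Λ := by
    by_contra hneg
    push Not at hneg
    have : 0 < (k : ℝ) * e := by positivity
    nlinarith
  have hmval : (m : ℝ) = k * e / Λ := by rw [← hme]; field_simp
  have hQ : ((k * (2 * b + c) : ℕ) : ℝ) = k * w := by rw [hw]; push_cast; ring
  have hP : ((2 * c * m : ℕ) : ℝ) = 2 * (z * w) * (k * e / Λ) := by
    push_cast
    rw [← hmval, ← hcz]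
  have hκ : ((k * c : ℕ) : ℝ) = k * (z * w) := by push_cast; rw [← hcz]
  rw [hQ, hP, hκ]
  have hid : (k : ℝ) * w * (k * w * e - 2 * (z * w) * (k * e / Λ)) - e * (k * (z * w)) ^ 2 / 3 =
      e * (k * (z * w)) ^ 2 * ((Λ - 2 * z) / (z ^ 2 * Λ) - 1 / 3) := by
    field_simp
  rw [hid, abs_mul, abs_of_pos (by positivity)]
  have h1 : e * (k * (z * w)) ^ 2 * |(Λ - 2 * z) / (z ^ 2 * Λ) - 1 / 3| ≤
      e * (k * (z * w)) ^ 2 * (3 * z ^ 2) := by gcongr
  refine h1.trans ?_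
  rw [le_div_iff₀ (by positivity)]
  have hkw : 1 ≤ (k : ℝ) * w := by
    have h2 : (1 : ℝ) ≤ k := by exact_mod_cast hk
    have h3 : (1 : ℝ) ≤ b := by exact_mod_cast hb
    rw [hw]; nlinarith
  have h4 : e * (k * (z * w)) ^ 2 * (3 * z ^ 2) * (k * w) =
      (3 * e * (k * (z * w)) ^ 2 * z ^ 2) * (k * w) := by ring
  have h5 : 3 * (k * (z * w)) ^ 4 * e = (3 * e * (k * (z * w)) ^ 2 * z ^ 2) * (k * w) ^ 2 := by ring
  rw [h4, h5]
  have h6 : (k * w : ℝ) ≤ (k * w) ^ 2 := by nlinarith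
  gcongr

theorem chain_all (S : ℕ) : ∃ Q0 : ℕ, ∀ κ : ℕ, 0 < κ → κ ≤ S → ∀ Q P : ℕ, Q0 ≤ Q →
    ¬ |(Q : ℝ) * (Q * e - P) - e * κ ^ 2 / 3| ≤ (3 * (κ : ℝ) ^ 4 * e) / Q := by
  induction S with
  | zero => exact ⟨0, fun κ h1 h2 => by omega⟩
  | succ S ih =>
    obtain ⟨Q0, h0⟩ := ih
    obtain ⟨Q1, h1⟩ := chain (S + 1) (by omega) (3 * ((S + 1 : ℕ) : ℝ) ^ 4 * e)
    refine ⟨max Q0 Q1, fun κ hκ hκS Q P hQ => ?_⟩
    by_cases h : κ ≤ S
    · exact h0 κ hκ h Q P (le_trans (le_max_left _ _) hQ)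
    · have : κ = S + 1 := by omega
      subst this
      exact h1 Q P (le_trans (le_max_right _ _) hQ)

/-- `e^(ke/m)` is not a rational number with denominator at most `K m`, for large `m` -/
theorem main (K : ℕ) : ∃ M : ℕ, ∀ m k a b : ℕ, M ≤ m → 1 ≤ k → k ≤ K → 1 ≤ b → b ≤ K * m →
    ((a : ℝ) / b) ^ m ≠ Real.exp (k * e) := by
  obtain ⟨Q0, hQ0⟩ := chain_all (6 * K ^ 3)
  refine ⟨(Q0 + 1) * (6 * K) + 6 * K + 1, fun m k a b hm hk hkK hb hbK h => ?_⟩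
  have he0 : 0 < e := Real.exp_pos 1
  have he3 : e < 3 := by
    have := Real.exp_one_lt_d9
    unfold e
    linarith
  have hK : 1 ≤ K := hk.trans hkK
  have hKr : (1 : ℝ) ≤ K := by exact_mod_cast hK
  have hkr : (1 : ℝ) ≤ k := by exact_mod_cast hk
  have hkKr : (k : ℝ) ≤ K := by exact_mod_cast hkK
  have hbr : (1 : ℝ) ≤ b := by exact_mod_cast hb
  have hm0 : 0 < m := by omega
  have hmr : (0 : ℝ) < m := by exact_mod_cast hm0
  have hmK : 6 * (K : ℝ) ≤ m := by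
    have : 6 * K ≤ m := by nlinarith [Nat.zero_le ((Q0 + 1) * (6 * K))]
    exact_mod_cast this
  obtain ⟨x, hx⟩ : ∃ x : ℝ, x = k * e / m := ⟨_, rfl⟩
  have hx0 : 0 < x := by rw [hx]; positivity
  have hx1 : x ≤ 1 / 2 := by
    rw [hx, div_le_iff₀ hmr]
    nlinarith
  -- a / b = exp x
  have hab : (a : ℝ) / b = Real.exp x := by
    have h1 : Real.exp x ^ m = Real.exp (k * e) := by
      rw [← Real.exp_nat_mul, hx]
      congr 1
      field_simp
    have h2 : ((a : ℝ) / b) ^ m = Real.exp x ^ m := by rw [h, h1]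
    exact (pow_left_inj₀ (by positivity) (Real.exp_pos x).le (by omega)).1 h2
  have hexp1 : 1 + x ≤ Real.exp x := by linarith [Real.add_one_le_exp x]
  have hexp2 : Real.exp x ≤ 1 + 2 * x := by
    have h1 := Real.exp_bound_div_one_sub_of_interval hx0.le (by linarith : x < 1)
    refine h1.trans ?_
    rw [div_le_iff₀ (by linarith)]
    nlinarith
  have hltab : b < a := by
    have h1 : (1 : ℝ) < a / b := by rw [hab]; linarith
    rw [lt_div_iff₀ (by linarith)] at h1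
    exact_mod_cast (by linarith : (b : ℝ) < a)
  obtain ⟨c, rfl⟩ : ∃ c, a = b + c := ⟨a - b, by omega⟩
  have hc : 0 < c := by omega
  have hcr : (1 : ℝ) ≤ c := by exact_mod_cast hc
  have hcb : (c : ℝ) / b = Real.exp x - 1 := by
    rw [← hab]
    push_cast
    field_simp
    ring
  have hcb1 : (c : ℝ) ≤ 2 * x * b := by
    have : (c : ℝ) / b ≤ 2 * x := by linarith
    rwa [div_le_iff₀ (by linarith)] at this
  have hcleb : c ≤ b := by
    have : (c : ℝ) ≤ b := by nlinarith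
    exact_mod_cast this
  have hxm : x * m = k * e := by rw [hx]; field_simp
  have hbKr : (b : ℝ) ≤ K * m := by exact_mod_cast hbK
  -- c is bounded
  have hcS : c ≤ 6 * K ^ 2 := by
    have h1 : (c : ℝ) ≤ 6 * K ^ 2 := by
      calc (c : ℝ) ≤ 2 * x * b := hcb1
        _ ≤ 2 * x * (K * m) := by gcongr
        _ = 2 * K * (x * m) := by ring
        _ = 2 * K * (k * e) := by rw [hxm]
        _ ≤ 2 * K * (K * 3) := by gcongr
        _ = 6 * K ^ 2 := by ring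
    exact_mod_cast h1
  -- b is large
  have hbig : Q0 ≤ b := by
    have h1 : (m : ℝ) ≤ 6 * K * b := by
      calc (m : ℝ) ≤ m * c := by nlinarith
        _ ≤ m * (2 * x * b) := by gcongr
        _ = 2 * (x * m) * b := by ring
        _ = 2 * (k * e) * b := by rw [hxm]
        _ ≤ 2 * (K * 3) * b := by gcongr
        _ = 6 * K * b := by ring
    have h2 : m ≤ 6 * K * b := by exact_mod_cast h1
    by_contra hlt
    push Not at hlt
    have h3 : 6 * K * b ≤ 6 * K * Q0 := Nat.mul_le_mul_left _ hlt.le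
    have h4 : (Q0 + 1) * (6 * K) = 6 * K * Q0 + 6 * K := by ring
    omega
  have hkey := key m k b c hm0 hk hb hc hcleb (by
    rw [← h]
    push_cast
    rfl)
  refine hQ0 (k * c) (Nat.mul_pos hk hc) ?_ _ _ ?_ hkey
  · calc k * c ≤ K * (6 * K ^ 2) := Nat.mul_le_mul hkK hcS
      _ = 6 * K ^ 3 := by ring
  · calc Q0 ≤ b := hbig
      _ ≤ 1 * (2 * b + c) := by omega
      _ ≤ k * (2 * b + c) := Nat.mul_le_mul_right _ hk

end Pool.Agent.H76.EE
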