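import Pool.Agent.H76.EE.Main

/-! # Powers of `1 + 1/n` (helper76), for MP_58ae59_nt -/

set_option autoImplicit false

namespace Pool.Agent.H76.EE

theorem key2 (m n : ℕ) (hm : 0 < m) (hn : 0 < n)
    (h : ((n + 1 : ℝ) / n) ^ m = Real.exp e) :
    |((2 * n + 1 : ℕ) : ℝ) * ((2 * n + 1 : ℕ) * e - (2 * m : ℕ)) - e / 3| ≤
      3 * e / ((2 * n + 1 : ℕ) : ℝ) ^ 2 := by
  have he0 : 0 < e := Real.exp_pos 1
  have hmr : (0 : ℝ) < m := by exact_mod_cast hm
  have hnr : (1 : ℝ) ≤ n := by exact_mod_cast hn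
  obtain ⟨w, hw⟩ : ∃ w : ℝ, w = 2 * n + 1 := ⟨_, rfl⟩
  have hw0 : 0 < w := by rw [hw]; positivity
  obtain ⟨z, hz⟩ : ∃ z : ℝ, z = 1 / w := ⟨_, rfl⟩
  have hz0 : 0 < z := by rw [hz]; positivity
  have hz1 : z ≤ 1 / 2 := by
    rw [hz, div_le_div_iff₀ hw0 two_pos, hw]; linarith
  have hzw : z * w = 1 := by rw [hz]; field_simp
  obtain ⟨Λ, hΛ⟩ : ∃ Λ : ℝ, Λ = Real.log (1 + z) - Real.log (1 - z) := ⟨_, rfl⟩
  have hlog : Real.log ((n + 1 : ℝ) / n) = Λ := by
    rw [hΛ, ← Real.log_div (by linarith) (by linarith)]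
    congr 1
    rw [hz, hw]
    have : (2 * n + 1 : ℝ) ≠ 0 := by positivity
    have h2 : (1 - 1 / (2 * n + 1) : ℝ) ≠ 0 := by
      have : (1 - 1 / (2 * n + 1) : ℝ) = 2 * n / (2 * n + 1) := by field_simp; ring
      rw [this]
      positivity
    field_simp
    ring
  have hme : m * Λ = e := by
    rw [← hlog, ← Real.log_pow, h, Real.log_exp]
  have hest := log_est z hz0 hz1
  rw [← hΛ] at hest
  have hrat := ratio_est z Λ hz0 hz1 hest
  have hΛ0 : 0 < Λ := by
    by_contra hneg
    push Not at hneg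
    nlinarith
  have hmval : (m : ℝ) = e / Λ := by rw [← hme]; field_simp
  have hQ : ((2 * n + 1 : ℕ) : ℝ) = w := by rw [hw]; push_cast; ring
  have hP : ((2 * m : ℕ) : ℝ) = 2 * (z * w) * (e / Λ) := by
    rw [hzw]
    push_cast
    rw [← hmval]
    ring
  rw [hQ, hP]
  have hid : w * (w * e - 2 * (z * w) * (e / Λ)) - e / 3 =
      e * ((z * w) ^ 2 * (Λ - 2 * z) / (z ^ 2 * Λ) - 1 / 3) := by
    field_simp
  rw [hid, hzw, one_pow, one_mul, abs_mul, abs_of_pos he0]
  have h1 : e * |(Λ - 2 * z) / (z ^ 2 * Λ) - 1 / 3| ≤ e * (3 * z ^ 2) := by gcongr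
  refine h1.trans (le_of_eq ?_)
  rw [hz]
  field_simp

/-- the finite check -/
def chk (q : ℕ) : Bool :=
  decide (((27182818286 * q * q - 5700000000) / (10000000000 * q)) % 2 = 1 ∨
    10000000000 * q * ((27182818286 * q * q - 5700000000) / (10000000000 * q)) + 12500000000 ≤
      27182818283 * q * q)

theorem chk_all : ∀ k < 498, chk (2 * k + 5) = true := by decide +kernel

theorem no_small (q p : ℕ) (hq : Odd q) (hp : Even p) (h5 : 5 ≤ q) (hq1 : q < 1001)
    (h1 : 0.57 < (q : ℝ) * (q * e - p)) (h2 : (q : ℝ) * (q * e - p) < 1.25) : False := by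
  obtain ⟨k, hk⟩ := hq
  obtain ⟨k, rfl⟩ : ∃ j, k = j + 2 := ⟨k - 2, by omega⟩
  have hkc : chk q = true := by
    have := chk_all k (by omega)
    have e1 : 2 * k + 5 = q := by omega
    rwa [e1] at this
  unfold chk at hkc
  rw [decide_eq_true_iff] at hkc
  have he1 : (2.7182818283 : ℝ) < e := Real.exp_one_gt_d9
  have he2 : e < (2.7182818286 : ℝ) := Real.exp_one_lt_d9
  have hqr : (5 : ℝ) ≤ q := by exact_mod_cast h5
  have hq2 : (0 : ℝ) < (q : ℝ) * q := by positivity
  have hup : 10000000000 * q * p + 5700000000 < 27182818286 * q * q := by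
    have : (10000000000 * q * p + 5700000000 : ℝ) < 27182818286 * q * q := by nlinarith
    exact_mod_cast this
  have hlo : 27182818283 * q * q < 10000000000 * q * p + 12500000000 := by
    have : (27182818283 * q * q : ℝ) < 10000000000 * q * p + 12500000000 := by nlinarith
    exact_mod_cast this
  obtain ⟨P, hP⟩ : ∃ P, P = (27182818286 * q * q - 5700000000) / (10000000000 * q) := ⟨_, rfl⟩
  rw [← hP] at hkc
  have hpP : p ≤ P := by
    rw [hP, Nat.le_div_iff_mul_le (by omega)]
    have : p * (10000000000 * q) = 10000000000 * q * p := by ring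
    omega
  have hPle : P * (10000000000 * q) ≤ 27182818286 * q * q - 5700000000 := by
    rw [hP]; exact Nat.div_mul_le_self _ _
  rcases Nat.lt_or_ge p P with hlt | hge
  · have h3 : (p + 1) * (10000000000 * q) ≤ P * (10000000000 * q) := Nat.mul_le_mul_right _ hlt
    have h4 : (p + 1) * (10000000000 * q) = 10000000000 * q * p + 10000000000 * q := by ring
    have h5' : 3 * (q * q) ≤ 3 * (1001 * q) := by
      apply Nat.mul_le_mul_left
      exact Nat.mul_le_mul_right _ hq1.le
    have e1 : 27182818286 * q * q = 27182818286 * (q * q) := by ring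
    have e2 : 27182818283 * q * q = 27182818283 * (q * q) := by ring
    omega
  · have : p = P := le_antisymm hpP hge
    subst this
    rcases hkc with h3 | h3
    · obtain ⟨j, hj⟩ := hp
      omega
    · omega

theorem no_large (q p : ℕ) (hq : Odd q) (hp : Even p) (hq1 : 1001 ≤ q) (v : ℝ)
    (hv : v = (q : ℝ) * (q * e - p)) (h1 : 0.906 < v) (h2 : v < 0.9064) : False := by
  obtain ⟨N, hN2, hN, hN'⟩ := exists_N q (by omega)
  have hB4 : B 4 = 1001 := by simp [B]
  have hN4 : 4 ≤ N := by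
    by_contra hlt
    push Not at hlt
    have : B (N + 1) ≤ B 4 := B_mono' (by omega)
    omega
  have hqr : (0 : ℝ) < q := by exact_mod_cast (by omega : 0 < q)
  -- parity
  have hodd : ∀ n, Odd ((q : ℤ) * A n - p * B n) := by
    intro n
    have h := (odd_AB n).1
    have h3 : Odd ((q : ℤ) * A n) := by
      exact_mod_cast hq.mul h.1
    have h4 : Even ((p : ℤ) * B n) := by
      exact_mod_cast hp.mul_right (B n)
    exact h3.sub_even h4
  have hform : ∀ n, (((q : ℤ) * A n - p * B n : ℤ) : ℝ) = (B n / q) * v - q * δ n := by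
    intro n
    rw [hv]
    unfold δ
    push_cast
    field_simp
    ring
  obtain ⟨a, ha⟩ : ∃ a : ℝ, a = B N / q := ⟨_, rfl⟩
  obtain ⟨x, hx⟩ : ∃ x : ℝ, x = q * E N := ⟨_, rfl⟩
  obtain ⟨b, hb⟩ : ∃ b : ℝ, b = B (N + 1) / q := ⟨_, rfl⟩
  obtain ⟨y, hy⟩ : ∃ y : ℝ, y = q * E (N + 1) := ⟨_, rfl⟩
  have hx0 : 0 < x := by rw [hx]; exact mul_pos hqr (E_pos _)
  have hy0 : 0 < y := by rw [hy]; exact mul_pos hqr (E_pos _)
  have ha0 : 0 < a := by rw [ha]; exact div_pos (Bpos _) hqr
  have hb0 : 0 < b := by rw [hb]; exact div_pos (Bpos _) hqr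
  have ha1 : a ≤ 1 := by
    rw [ha, div_le_one hqr]; exact_mod_cast hN
  have hax : a * x = u N := by rw [ha, hx]; unfold u; field_simp
  have hsum : b * x + a * y = 2 := by
    rw [ha, hx, hb, hy, ← cas N]; field_simp
  have hx2 : x < 2 := by
    have h3 : (q : ℝ) < B (N + 1) := by exact_mod_cast hN'
    have h4 := BE_le N
    have h5 := E_pos N
    rw [hx]
    nlinarith
  have hyx : 22 * y ≤ x := by
    have h3 := E_mono N
    have h4 : (4 : ℝ) ≤ N := by exact_mod_cast hN4
    have h5 := E_pos (N + 1)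
    rw [hx, hy]
    have h6 : 22 * E (N + 1) ≤ E N := by nlinarith
    nlinarith
  have hu : (2 * (N : ℝ) + 1) * u N ≤ 1 := by
    obtain ⟨k, rfl⟩ : ∃ k, N = k + 1 := ⟨N - 1, by omega⟩
    exact u_le k
  have hX := hform N
  have hX' := hform (N + 1)
  rw [← ha] at hX
  rw [← hb] at hX'
  obtain ⟨X, hXd⟩ : ∃ X : ℤ, X = (q : ℤ) * A N - p * B N := ⟨_, rfl⟩
  obtain ⟨X', hXd'⟩ : ∃ X' : ℤ, X' = (q : ℤ) * A (N + 1) - p * B (N + 1) := ⟨_, rfl⟩
  have hXo : Odd X := by rw [hXd]; exact hodd N
  have hXo' : Odd X' := by rw [hXd']; exact hodd (N + 1)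
  rw [← hXd] at hX
  rw [← hXd'] at hX'
  -- conclusion from bounds on X'
  have hfin : (1 : ℝ) < X' → (X' : ℝ) < 3 → False := by
    intro h3 h4
    have h5 : 1 < X' := by exact_mod_cast h3
    have h6 : X' < 3 := by exact_mod_cast h4
    obtain ⟨j, hj⟩ := hXo'
    omega
  have hay : a * y ≤ x / 22 := by nlinarith
  rcases Nat.even_or_odd N with hNe | hNo
  · have hd1 : δ N = E N := by rw [δ_eq', hNe.neg_one_pow, one_mul]
    have hd2 : δ (N + 1) = - E (N + 1) := by rw [δ_eq', hNe.add_one.neg_one_pow]; ring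
    rw [hd1, ← hx] at hX
    rw [hd2] at hX'
    have hX2 : (X' : ℝ) = b * v + y := by rw [hX', hy]; ring
    have h3 : (-2 : ℝ) < X := by rw [hX]; nlinarith
    have h4 : (X : ℝ) < 1 := by rw [hX]; nlinarith
    have h5 : -2 < X := by exact_mod_cast h3
    have h6 : X < 1 := by exact_mod_cast h4
    have h7 : X = -1 := by
      obtain ⟨j, hj⟩ := hXo
      omega
    rw [h7] at hX
    push_cast at hX
    have h8 : x = 1 + a * v := by linarith
    have hu9 : u N ≤ 1 / 9 := by
      have h4 : (4 : ℝ) ≤ N := by exact_mod_cast hN4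
      have := u_pos N
      nlinarith
    have ha9 : a ≤ 1 / 9 := by nlinarith
    have hx11 : x ≤ 1.101 := by nlinarith
    have hx1 : 1 ≤ x := by nlinarith
    have hbv : b * v * x = (2 - a * y) * v := by rw [← hsum]; ring
    apply hfin
    · rw [hX2]
      have : 1 < b * v := by
        by_contra hle
        push Not at hle
        have : b * v * x ≤ 1.101 := by nlinarith
        have h9 : a * y ≤ 0.06 := by linarith
        nlinarith
      linarith
    · rw [hX2]
      have : b * v ≤ 2 := by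
        by_contra hle
        push Not at hle
        have : 2 < b * v * x := by nlinarith
        have h9 : 0 < a * y := by positivity
        nlinarith
      linarith
  · have hd1 : δ N = - E N := by rw [δ_eq', hNo.neg_one_pow]; ring
    have hd2 : δ (N + 1) = E (N + 1) := by rw [δ_eq', hNo.add_one.neg_one_pow, one_mul]
    rw [hd1] at hX
    rw [hd2, ← hy] at hX'
    have hX1 : (X : ℝ) = a * v + x := by rw [hX, hx]; ring
    have h3 : (0 : ℝ) < X := by rw [hX1]; positivity
    have h4 : (X : ℝ) < 3 := by rw [hX1]; nlinarith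
    have h5 : 0 < X := by exact_mod_cast h3
    have h6 : X < 3 := by exact_mod_cast h4
    have h7 : X = 1 := by
      obtain ⟨j, hj⟩ := hXo
      omega
    rw [h7] at hX1
    push_cast at hX1
    have h8 : x = 1 - a * v := by linarith
    have hN5 : 5 ≤ N := by
      obtain ⟨j, hj⟩ := hNo
      omega
    have hu11 : u N ≤ 1 / 11 := by
      have h4 : (5 : ℝ) ≤ N := by exact_mod_cast hN5
      have := u_pos N
      nlinarith
    have hau : a * (1 - a * v) ≤ 1 / 11 := by rw [← h8, hax]; exact hu11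
    have ha2 : a < 1 / 2 := by
      by_contra hle
      push Not at hle
      have h9 : 0 ≤ (a - 1 / 2) * (1 - a) := mul_nonneg (by linarith) (by linarith)
      nlinarith
    have hx5 : 0.54 ≤ x := by nlinarith
    have ha3 : a ≤ 0.17 := by nlinarith
    have hx8 : 0.84 ≤ x := by nlinarith
    have hx1 : x ≤ 1 := by nlinarith
    have hbv : b * v * x = (2 - a * y) * v := by rw [← hsum]; ring
    have h9 : a * y ≤ 0.05 := by linarith
    have h10 : 0 < a * y := by positivity
    apply hfin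
    · rw [hX']
      by_contra hle
      push Not at hle
      have h11 : b * v ≤ 1 + y := by linarith
      have h12 : b * v * x ≤ (1 + y) * x := by nlinarith
      have h13 : y ≤ 0.05 := by linarith
      nlinarith
    · rw [hX']
      have : b * v < 3 := by
        by_contra hle
        push Not at hle
        have : 3 * x ≤ b * v * x := by nlinarith
        nlinarith
      linarith

/-- `e^e` is not a power of `1 + 1/n` -/
theorem main2 (m n : ℕ) (hm : 0 < m) (hn : 0 < n) : ((n + 1 : ℝ) / n) ^ m ≠ Real.exp e := by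
  intro h
  have he0 : 0 < e := Real.exp_pos 1
  have he1 : (2.7182818283 : ℝ) < e := Real.exp_one_gt_d9
  have he2 : e < (2.7182818286 : ℝ) := Real.exp_one_lt_d9
  rcases Nat.lt_or_ge n 2 with h1 | h1
  · have hn1 : n = 1 := by omega
    subst hn1
    have h2 : (m : ℝ) * Real.log 2 = e := by
      have h3 : ((1 : ℕ) + 1 : ℝ) / (1 : ℕ) = 2 := by norm_num
      rw [h3] at h
      rw [← Real.log_pow, h, Real.log_exp]
    have hl1 := Real.log_two_gt_d9
    have hl2 := Real.log_two_lt_d9
    rcases Nat.lt_or_ge m 4 with h4 | h4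
    · have : (m : ℝ) ≤ 3 := by exact_mod_cast (by omega : m ≤ 3)
      nlinarith
    · have : (4 : ℝ) ≤ m := by exact_mod_cast h4
      nlinarith
  · have hk := key2 m n hm hn h
    obtain ⟨hk1, hk2⟩ := abs_le.1 hk
    have hqo : Odd (2 * n + 1) := ⟨n, rfl⟩
    have hpe : Even (2 * m) := ⟨m, by ring⟩
    have hq5 : (5 : ℝ) ≤ ((2 * n + 1 : ℕ) : ℝ) := by exact_mod_cast (by omega : 5 ≤ 2 * n + 1)
    rcases Nat.lt_or_ge (2 * n + 1) 1001 with h5 | h5
    · have hb : 3 * e / ((2 * n + 1 : ℕ) : ℝ) ^ 2 ≤ 0.33 := by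
        rw [div_le_iff₀ (by positivity)]
        nlinarith
      exact no_small _ _ hqo hpe (by omega) h5 (by linarith) (by linarith)
    · have hq6 : (1001 : ℝ) ≤ ((2 * n + 1 : ℕ) : ℝ) := by exact_mod_cast h5
      have hq7 : (1000000 : ℝ) ≤ ((2 * n + 1 : ℕ) : ℝ) ^ 2 := by
        have := pow_le_pow_left₀ (by norm_num) hq6 2
        refine le_trans (by norm_num) this
      have hb : 3 * e / ((2 * n + 1 : ℕ) : ℝ) ^ 2 ≤ 1 / 100000 := by
        rw [div_le_iff₀ (by positivity)]
        linarith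
      exact no_large _ _ hqo hpe h5 _ rfl (by linarith) (by linarith)

end Pool.Agent.H76.EE
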